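import Pool.Agent.Helper70.GLn.SM1

/-!
# GW-AW: lower bound for partial sums of Fourier coefficients (60-100 lines)

PROOF. This is the private lemma `avg24` in `Pool/Agent/Helper70/GLn/SM1.lean` (copy and adapt it with its auxiliary lemmas `lg24`, `phi24`, `comp_inj24`) with the inequality reversed.
For `g ∈ SL(B)` the map `M ↦ g ∘ M` is a bijection and `phi θ (g ∘ M) 1 = phi θ M 1`; so
`|SL(B)| * ∑_{M ≠ 0, T M} phi θ M 1 = ∑_{M ≠ 0} phi θ M 1 * #{g : T (g ∘ M)} ≥ ∑_{M ≠ 0} phi θ M 1 * c * |SL(B)|` and `∑_{M ≠ 0} phi θ M 1 = NU θ` (`nu_eq`), `phi θ M 1 ≥ 0` for `M ≠ 0`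
(`phi_nonneg`).
-/

set_option autoImplicit false

open Module Pool.Agent.Helper13.Ded

namespace Pool.Agent.Helper70.GLn

private def lg31 {F A B : Type} [Field F] [AddCommGroup A] [Module F A]
    [AddCommGroup B] [Module F B] [Finite F] [Finite A] [Finite B] (g : SpecialLinearGroup F B) : Lev F A B :=
  ⟨(1, (g : B ≃ₗ[F] B)), by
    show LinearEquiv.det (1 : A ≃ₗ[F] A) * LinearEquiv.det (g : B ≃ₗ[F] B) = 1
    rw [map_one, one_mul]
    exact g.2⟩

private lemma phi31 {F A B : Type} [Field F] [Finite F] [AddCommGroup A] [Module F A] [Finite A]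
    [AddCommGroup B] [Module F B] [Finite B] {θ : SpecialLinearGroup F (A × B) → ℝ}
    (h : HP θ) (g : SpecialLinearGroup F B) (M : A →ₗ[F] B) :
    phi θ ((g : B →ₗ[F] B) ∘ₗ M) 1 = phi θ M 1 := by
  rw [← phi_cact h (lg31 g) M]
  rfl

private lemma comp_inj31 {F A B : Type} [Field F] [AddCommGroup A] [Module F A]
    [AddCommGroup B] [Module F B] (g : SpecialLinearGroup F B) :
    Function.Injective (fun M : A →ₗ[F] B => (g : B →ₗ[F] B) ∘ₗ M) := by
  intro M M' hMM
  ext a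
  apply sl_injective g
  exact LinearMap.congr_fun hMM a

open Classical in
theorem avg_lower {F A B : Type} [Field F] [Finite F] [AddCommGroup A] [Module F A] [Finite A]
    [AddCommGroup B] [Module F B] [Finite B] {θ : SpecialLinearGroup F (A × B) → ℝ}
    [Fintype (A →ₗ[F] B)] (h : HP θ) (T : (A →ₗ[F] B) → Prop) (c : ℝ)
    (hcount : ∀ M : A →ₗ[F] B, M ≠ 0 → c * Nat.card (SpecialLinearGroup F B) ≤
      Nat.card {g : SpecialLinearGroup F B // T ((g : B →ₗ[F] B) ∘ₗ M)}) :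
    c * NU θ ≤ ∑ M : A →ₗ[F] B, if M ≠ 0 ∧ T M then phi θ M 1 else 0 := by
  have := Fintype.ofFinite (SpecialLinearGroup F B)
  have hN : (0 : ℝ) < Nat.card (SpecialLinearGroup F B) := by exact_mod_cast Nat.card_pos
  have hne : ∀ (g : SpecialLinearGroup F B) (M : A →ₗ[F] B),
      (g : B →ₗ[F] B) ∘ₗ M ≠ 0 ↔ M ≠ 0 := by
    intro g M
    have h0 : (g : B →ₗ[F] B) ∘ₗ (0 : A →ₗ[F] B) = 0 := LinearMap.comp_zero _
    constructor
    · rintro h1 rfl
      exact h1 h0
    · intro h1 h2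
      exact h1 (comp_inj31 g (h2.trans h0.symm))
  have h1 : ∀ g : SpecialLinearGroup F B,
      (∑ M : A →ₗ[F] B, if M ≠ 0 ∧ T M then phi θ M 1 else 0) =
      ∑ M : A →ₗ[F] B, if M ≠ 0 ∧ T ((g : B →ₗ[F] B) ∘ₗ M) then phi θ M 1 else 0 := by
    intro g
    have hbij : Function.Bijective (fun M : A →ₗ[F] B => (g : B →ₗ[F] B) ∘ₗ M) :=
      (Finite.injective_iff_bijective).1 (comp_inj31 g)
    rw [← Fintype.sum_bijective _ hbij
      (fun M : A →ₗ[F] B => if (g : B →ₗ[F] B) ∘ₗ M ≠ 0 ∧ T ((g : B →ₗ[F] B) ∘ₗ M) then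
        phi θ ((g : B →ₗ[F] B) ∘ₗ M) 1 else 0) (fun M => if M ≠ 0 ∧ T M then phi θ M 1 else 0)
        (fun M => rfl)]
    refine Finset.sum_congr rfl fun M _ => ?_
    rw [phi31 h]
    simp only [hne g M]
  have h2 : (Nat.card (SpecialLinearGroup F B) : ℝ) *
      (∑ M : A →ₗ[F] B, if M ≠ 0 ∧ T M then phi θ M 1 else 0) =
      ∑ M : A →ₗ[F] B, (if M = 0 then 0 else phi θ M 1) *
        (Nat.card {g : SpecialLinearGroup F B // T ((g : B →ₗ[F] B) ∘ₗ M)} : ℝ) := by
    rw [Nat.card_eq_fintype_card, ← nsmul_eq_mul, ← Finset.card_univ, ← Finset.sum_const,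
      Finset.sum_congr rfl (fun g _ => h1 g), Finset.sum_comm]
    refine Finset.sum_congr rfl fun M _ => ?_
    by_cases hM : M = 0
    · rw [if_pos hM, zero_mul]
      refine Finset.sum_eq_zero fun g _ => ?_
      rw [if_neg (fun h0 => h0.1 hM)]
    · rw [if_neg hM, Nat.card_eq_fintype_card, Fintype.card_subtype]
      have h3 : ∀ g : SpecialLinearGroup F B,
          (if M ≠ 0 ∧ T ((g : B →ₗ[F] B) ∘ₗ M) then phi θ M 1 else 0) =
          if T ((g : B →ₗ[F] B) ∘ₗ M) then phi θ M 1 else 0 := by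
        intro g
        simp only [ne_eq, hM, not_false_eq_true, true_and]
      rw [Finset.sum_congr rfl (fun g _ => h3 g), ← Finset.sum_filter, Finset.sum_const,
        nsmul_eq_mul, mul_comm]
  have h4 : (Nat.card (SpecialLinearGroup F B) : ℝ) * (c * NU θ) ≤
      Nat.card (SpecialLinearGroup F B) *
        (∑ M : A →ₗ[F] B, if M ≠ 0 ∧ T M then phi θ M 1 else 0) := by
    rw [h2, nu_eq h, Finset.mul_sum, Finset.mul_sum]
    refine Finset.sum_le_sum fun M _ => ?_
    by_cases hM : M = 0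
    · rw [if_pos hM, mul_zero, mul_zero, zero_mul]
    · rw [if_neg hM]
      have h5 := mul_le_mul_of_nonneg_left (hcount M hM) (phi_nonneg h hM)
      calc (Nat.card (SpecialLinearGroup F B) : ℝ) * (c * phi θ M 1) =
          phi θ M 1 * (c * Nat.card (SpecialLinearGroup F B)) := by ring
        _ ≤ _ := h5
  exact le_of_mul_le_mul_left h4 hN

end Pool.Agent.Helper70.GLn
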