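import Pool.Agent.Helper70.GLn.SM1

/-!
# GW-CN: three counts in the special linear group (120-200 lines)

PROOF. `q = |F|`, `b = finrank B`. `count_in` and `count_meet` are contained in the proofs of `sum_in` and `sum_meet` in `Pool/Agent/Helper70/GLn/SM1.lean` (copy and adapt).
`count_in`: choose a functional `f ≠ 0` with `Z ≤ ker f`. If `range (g ∘ M) ≤ Z` then `f ∘ g` is a nonzero functional vanishing on `range M`; `card_dual` with `S` = the nonzero functionals vanishing on
`range M`, `|S| = q ^ (b - r) - 1`, `r = finrank (range M)`: the count is at most `|SL| (q ^ (b - r) - 1) / (q ^ b - 1) ≤ |SL| / q ^ r`.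
`count_meet`: if `range (g ∘ M) ⊓ D ≠ ⊥` there is `v ∈ range M`, `v ≠ 0`, with `g v ∈ D \ {0}`; by `card_vec` each `v` contributes `|SL| (|D| - 1) / (q ^ b - 1)`, and there are less than
`q ^ r` such `v`. `count_vec`: `card_vec` with `S` without `0` (`|S \ {0}| ≥ |S| - 1`).
-/

set_option autoImplicit false

open Module Pool.Agent.Helper13.Ded

namespace Pool.Agent.Helper70.GLn

variable {F A B : Type} [Field F] [Finite F] [AddCommGroup A] [Module F A] [Finite A]
  [AddCommGroup B] [Module F B] [Finite B]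

omit [Finite B] in
private lemma q40 : (1 : ℝ) < (Nat.card F : ℝ) := by
  exact_mod_cast Finite.one_lt_card

private lemma qB40 (hb : 2 ≤ finrank F B) : (0 : ℝ) < (Nat.card F : ℝ) ^ finrank F B - 1 := by
  have h1 := one_lt_pow₀ (q40 (F := F)) (n := finrank F B) (by omega)
  linarith

private lemma cardB40 : Nat.card B = Nat.card F ^ finrank F B := Module.natCard_eq_pow_finrank

private lemma castB40 : ((Nat.card B - 1 : ℕ) : ℝ) = (Nat.card F : ℝ) ^ finrank F B - 1 := by
  have h1 : 1 ≤ Nat.card B := Nat.card_pos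
  rw [Nat.cast_sub h1, cardB40 (F := F)]
  push_cast
  ring

/-- the number of nonzero elements of a finite subspace -/
private lemma ncard40 {W : Type} [AddCommGroup W] [Module F W] [Finite W] (P : Submodule F W) :
    Nat.card ((P : Set W) \ {0} : Set W) + 1 = Nat.card F ^ finrank F P := by
  rw [Nat.card_coe_set_eq, Set.ncard_sdiff_singleton_add_one P.zero_mem (Set.toFinite _),
    ← Nat.card_coe_set_eq]
  exact Module.natCard_eq_pow_finrank

theorem count_in (hb : 2 ≤ finrank F B) (M : A →ₗ[F] B) (hM : M ≠ 0) (Z : Submodule F B)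
    (hZ : Z ≠ ⊤) :
    (Nat.card {g : SpecialLinearGroup F B // LinearMap.range ((g : B →ₗ[F] B) ∘ₗ M) ≤ Z} : ℝ) *
      (Nat.card F : ℝ) ^ finrank F (LinearMap.range M) ≤ Nat.card (SpecialLinearGroup F B) := by
  classical
  have hq := q40 (F := F)
  have hN : (0 : ℝ) < Nat.card (SpecialLinearGroup F B) := by exact_mod_cast Nat.card_pos
  obtain ⟨f, hf, hfZ⟩ := Submodule.exists_le_ker_of_lt_top Z (lt_top_iff_ne_top.2 hZ)
  set W := LinearMap.range M with hW
  have hfinD : Finite (Dual F B) := Finite.of_injective (fun e : B →ₗ[F] F => (e : B → F))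
    DFunLike.coe_injective
  have hs1 := ncard40 (F := F) (W := Dual F B) W.dualAnnihilator
  have hs2 := Subspace.finrank_add_finrank_dualAnnihilator_eq W
  have hcd := card_dual hb hf ((W.dualAnnihilator : Set (Dual F B)) \ {0})
    (fun h0 => h0.2 rfl)
  have hle : Nat.card {g : SpecialLinearGroup F B //
      LinearMap.range ((g : B →ₗ[F] B) ∘ₗ M) ≤ Z} ≤
      Nat.card {g : SpecialLinearGroup F B // f ∘ₗ (g : B →ₗ[F] B) ∈
        ((W.dualAnnihilator : Set (Dual F B)) \ {0})} := by
    refine Nat.card_le_card_of_injective (fun g => ⟨g.1, ?_, ?_⟩) ?_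
    · show f ∘ₗ (g.1 : B →ₗ[F] B) ∈ W.dualAnnihilator
      rw [Submodule.mem_dualAnnihilator]
      intro w hw
      obtain ⟨a, rfl⟩ := hw
      exact hfZ (g.2 ⟨a, rfl⟩)
    · intro h0
      apply hf
      ext x
      have h1 := LinearMap.congr_fun h0 (g.1⁻¹ x)
      have h2 : f (g.1 (g.1⁻¹ x)) = 0 := h1
      rw [inv_apply_self] at h2
      exact h2
    · intro g g' hgg
      exact Subtype.ext (Subtype.mk.inj hgg)
  set n := Nat.card {g : SpecialLinearGroup F B // f ∘ₗ (g : B →ₗ[F] B) ∈
        ((W.dualAnnihilator : Set (Dual F B)) \ {0})} with hn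
  set sN := Nat.card ((W.dualAnnihilator : Set (Dual F B)) \ {0} : Set (Dual F B)) with hsN
  have e1 : (n : ℝ) * ((Nat.card F : ℝ) ^ finrank F B - 1) =
      Nat.card (SpecialLinearGroup F B) * (sN : ℝ) := by
    rw [← castB40]
    exact_mod_cast hcd
  have e2 : ((sN : ℝ) + 1) * (Nat.card F : ℝ) ^ finrank F W = (Nat.card F : ℝ) ^ finrank F B := by
    have h1 : (sN : ℝ) + 1 = (Nat.card F : ℝ) ^ finrank F W.dualAnnihilator := by
      exact_mod_cast hs1
    rw [h1, ← pow_add, add_comm, hs2]
  have hb1 := qB40 (F := F) (B := B) hb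
  have hqr : (1 : ℝ) ≤ (Nat.card F : ℝ) ^ finrank F W := one_le_pow₀ hq.le
  have e3 : (n : ℝ) * (Nat.card F : ℝ) ^ finrank F W ≤ Nat.card (SpecialLinearGroup F B) := by
    have h1 : ((n : ℝ) * (Nat.card F : ℝ) ^ finrank F W) * ((Nat.card F : ℝ) ^ finrank F B - 1) ≤
        Nat.card (SpecialLinearGroup F B) * ((Nat.card F : ℝ) ^ finrank F B - 1) := by
      have h2 : ((n : ℝ) * (Nat.card F : ℝ) ^ finrank F W) *
          ((Nat.card F : ℝ) ^ finrank F B - 1) =
          Nat.card (SpecialLinearGroup F B) *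
            ((Nat.card F : ℝ) ^ finrank F B - (Nat.card F : ℝ) ^ finrank F W) := by
        calc ((n : ℝ) * (Nat.card F : ℝ) ^ finrank F W) * ((Nat.card F : ℝ) ^ finrank F B - 1)
            = ((n : ℝ) * ((Nat.card F : ℝ) ^ finrank F B - 1)) *
              (Nat.card F : ℝ) ^ finrank F W := by ring
          _ = _ := by
              rw [e1]
              linear_combination (Nat.card (SpecialLinearGroup F B) : ℝ) * e2
      rw [h2]
      exact mul_le_mul_of_nonneg_left (by linarith) hN.le
    exact le_of_mul_le_mul_right h1 hb1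
  refine le_trans (mul_le_mul_of_nonneg_right ?_ (by positivity)) e3
  exact_mod_cast hle

theorem count_meet (hb : 2 ≤ finrank F B) (M : A →ₗ[F] B) (D : Submodule F B) :
    (Nat.card {g : SpecialLinearGroup F B //
      LinearMap.range ((g : B →ₗ[F] B) ∘ₗ M) ⊓ D ≠ ⊥} : ℝ) *
      ((Nat.card F : ℝ) ^ finrank F B - 1) ≤
      (Nat.card F : ℝ) ^ (finrank F (LinearMap.range M) + finrank F D) *
        Nat.card (SpecialLinearGroup F B) := by
  classical
  have hq := q40 (F := F)
  have hb1 := qB40 (F := F) (B := B) hb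
  have hN : (0 : ℝ) < Nat.card (SpecialLinearGroup F B) := by exact_mod_cast Nat.card_pos
  set W := LinearMap.range M with hW
  have := Fintype.ofFinite (SpecialLinearGroup F B)
  have := Fintype.ofFinite B
  set Wf : Finset B := Finset.univ.filter (fun v => v ∈ W ∧ v ≠ 0) with hWf
  have hWc : (Wf.card : ℝ) ≤ (Nat.card F : ℝ) ^ finrank F W := by
    have h1 : Wf.card ≤ Nat.card W := by
      rw [Nat.card_eq_fintype_card, Fintype.card_subtype]
      refine Finset.card_le_card fun v hv => ?_
      rw [hWf, Finset.mem_filter] at hv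
      exact Finset.mem_filter.2 ⟨Finset.mem_univ _, hv.2.1⟩
    have h2 : Nat.card W = Nat.card F ^ finrank F W := Module.natCard_eq_pow_finrank
    rw [h2] at h1
    exact_mod_cast h1
  have hsub : (Finset.univ.filter (fun g : SpecialLinearGroup F B =>
      LinearMap.range ((g : B →ₗ[F] B) ∘ₗ M) ⊓ D ≠ ⊥)) ⊆
      Wf.biUnion (fun v => Finset.univ.filter (fun g : SpecialLinearGroup F B =>
        g v ∈ ((D : Set B) \ {0}))) := by
    intro g hg
    rw [Finset.mem_filter] at hg
    obtain ⟨x, hx, hx0⟩ := Submodule.exists_mem_ne_zero_of_ne_bot hg.2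
    obtain ⟨⟨a, ha⟩, hxD⟩ := Submodule.mem_inf.1 hx
    have ha' : g (M a) = x := ha
    rw [Finset.mem_biUnion]
    refine ⟨M a, ?_, ?_⟩
    · rw [hWf, Finset.mem_filter]
      refine ⟨Finset.mem_univ _, ⟨a, rfl⟩, ?_⟩
      intro h0
      apply hx0
      rw [← ha', h0]
      exact (g : B ≃ₗ[F] B).map_zero
    · rw [Finset.mem_filter]
      refine ⟨Finset.mem_univ _, ?_, ?_⟩
      · rw [ha']
        exact hxD
      · rw [ha']
        exact hx0
  have hcount : ∀ v ∈ Wf, ((Finset.univ.filter (fun g : SpecialLinearGroup F B =>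
        g v ∈ ((D : Set B) \ {0}))).card : ℝ) * ((Nat.card F : ℝ) ^ finrank F B - 1) ≤
        Nat.card (SpecialLinearGroup F B) * (Nat.card F : ℝ) ^ finrank F D := by
    intro v hv
    rw [hWf, Finset.mem_filter] at hv
    have h1 := card_vec hb hv.2.2 ((D : Set B) \ {0}) (fun h0 => h0.2 rfl)
    have h2 := ncard40 (F := F) D
    have h3 : Nat.card {g : SpecialLinearGroup F B // g v ∈ ((D : Set B) \ {0})} =
        (Finset.univ.filter (fun g : SpecialLinearGroup F B =>
          g v ∈ ((D : Set B) \ {0}))).card := by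
      rw [Nat.card_eq_fintype_card, Fintype.card_subtype]
    rw [h3] at h1
    have h4 : ((Finset.univ.filter (fun g : SpecialLinearGroup F B =>
        g v ∈ ((D : Set B) \ {0}))).card : ℝ) * ((Nat.card F : ℝ) ^ finrank F B - 1) =
        Nat.card (SpecialLinearGroup F B) *
          (Nat.card ((D : Set B) \ {0} : Set B) : ℝ) := by
      rw [← castB40]
      exact_mod_cast h1
    rw [h4]
    refine mul_le_mul_of_nonneg_left ?_ hN.le
    have h5 : (Nat.card ((D : Set B) \ {0} : Set B) : ℝ) + 1 =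
        (Nat.card F : ℝ) ^ finrank F D := by exact_mod_cast h2
    linarith
  have hcard : Nat.card {g : SpecialLinearGroup F B //
      LinearMap.range ((g : B →ₗ[F] B) ∘ₗ M) ⊓ D ≠ ⊥} =
      (Finset.univ.filter (fun g : SpecialLinearGroup F B =>
      LinearMap.range ((g : B →ₗ[F] B) ∘ₗ M) ⊓ D ≠ ⊥)).card := by
    rw [Nat.card_eq_fintype_card, Fintype.card_subtype]
  have hle : ((Finset.univ.filter (fun g : SpecialLinearGroup F B =>
      LinearMap.range ((g : B →ₗ[F] B) ∘ₗ M) ⊓ D ≠ ⊥)).card : ℝ) ≤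
      ∑ v ∈ Wf, ((Finset.univ.filter (fun g : SpecialLinearGroup F B =>
        g v ∈ ((D : Set B) \ {0}))).card : ℝ) := by
    have h1 := (Finset.card_le_card hsub).trans Finset.card_biUnion_le
    exact_mod_cast h1
  rw [hcard]
  calc _ ≤ (∑ v ∈ Wf, ((Finset.univ.filter (fun g : SpecialLinearGroup F B =>
        g v ∈ ((D : Set B) \ {0}))).card : ℝ)) * ((Nat.card F : ℝ) ^ finrank F B - 1) :=
        mul_le_mul_of_nonneg_right hle hb1.le
    _ = ∑ v ∈ Wf, ((Finset.univ.filter (fun g : SpecialLinearGroup F B =>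
        g v ∈ ((D : Set B) \ {0}))).card : ℝ) * ((Nat.card F : ℝ) ^ finrank F B - 1) := by
        rw [Finset.sum_mul]
    _ ≤ ∑ _v ∈ Wf, (Nat.card (SpecialLinearGroup F B) : ℝ) *
        (Nat.card F : ℝ) ^ finrank F D := Finset.sum_le_sum hcount
    _ = (Wf.card : ℝ) * (Nat.card (SpecialLinearGroup F B) *
        (Nat.card F : ℝ) ^ finrank F D) := by
        rw [Finset.sum_const, nsmul_eq_mul]
    _ ≤ (Nat.card F : ℝ) ^ finrank F W * (Nat.card (SpecialLinearGroup F B) *
        (Nat.card F : ℝ) ^ finrank F D) :=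
        mul_le_mul_of_nonneg_right hWc (by positivity)
    _ = _ := by
        rw [pow_add]
        ring

theorem count_vec (hb : 2 ≤ finrank F B) {v : B} (hv : v ≠ 0) (S : Set B) :
    ((Nat.card S : ℝ) - 1) * Nat.card (SpecialLinearGroup F B) ≤
      (Nat.card {g : SpecialLinearGroup F B // g v ∈ S} : ℝ) *
        ((Nat.card F : ℝ) ^ finrank F B) := by
  classical
  have hb1 := qB40 (F := F) (B := B) hb
  have hN : (0 : ℝ) < Nat.card (SpecialLinearGroup F B) := by exact_mod_cast Nat.card_pos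
  have h1 := card_vec hb hv (S \ {0}) (fun h0 => h0.2 rfl)
  have h2 : (Nat.card {g : SpecialLinearGroup F B // g v ∈ S \ {0}} : ℝ) *
      ((Nat.card F : ℝ) ^ finrank F B - 1) =
      Nat.card (SpecialLinearGroup F B) * (Nat.card (S \ {0} : Set B) : ℝ) := by
    rw [← castB40]
    exact_mod_cast h1
  have h3 : (Nat.card S : ℝ) ≤ Nat.card (S \ {0} : Set B) + 1 := by
    have h4 : S.ncard ≤ (S \ {0}).ncard + 1 := by
      have h5 := Set.le_ncard_sdiff {(0 : B)} S (Set.toFinite _)
      rw [Set.ncard_singleton] at h5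
      omega
    rw [Nat.card_coe_set_eq, Nat.card_coe_set_eq]
    exact_mod_cast h4
  have h4 : (Nat.card {g : SpecialLinearGroup F B // g v ∈ S \ {0}} : ℝ) ≤
      Nat.card {g : SpecialLinearGroup F B // g v ∈ S} := by
    have h5 : Nat.card {g : SpecialLinearGroup F B // g v ∈ S \ {0}} ≤
        Nat.card {g : SpecialLinearGroup F B // g v ∈ S} := by
      refine Nat.card_le_card_of_injective (fun g => ⟨g.1, g.2.1⟩) ?_
      intro g g' hgg
      exact Subtype.ext (Subtype.mk.inj hgg)
    exact_mod_cast h5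
  have h6 : (0 : ℝ) ≤ Nat.card {g : SpecialLinearGroup F B // g v ∈ S \ {0}} := Nat.cast_nonneg _
  have h7 : (0 : ℝ) < (Nat.card F : ℝ) ^ finrank F B := by linarith
  calc ((Nat.card S : ℝ) - 1) * Nat.card (SpecialLinearGroup F B)
      ≤ Nat.card (S \ {0} : Set B) * Nat.card (SpecialLinearGroup F B) :=
        mul_le_mul_of_nonneg_right (by linarith) hN.le
    _ = (Nat.card {g : SpecialLinearGroup F B // g v ∈ S \ {0}} : ℝ) *
      ((Nat.card F : ℝ) ^ finrank F B - 1) := by rw [h2]; ring
    _ ≤ (Nat.card {g : SpecialLinearGroup F B // g v ∈ S \ {0}} : ℝ) *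
      ((Nat.card F : ℝ) ^ finrank F B) := mul_le_mul_of_nonneg_left (by linarith) h6
    _ ≤ _ := mul_le_mul_of_nonneg_right h4 h7.le

end Pool.Agent.Helper70.GLn
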