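import Pool.Agent.Helper70.GLn.ZZ

/-!
# GW-FQ: the final comparison of averages (60-110 lines)

PROOF. `av_bad`: `∑_y (θ 1 - θ y) ≥ ∑_{y ∉ Bad} m ≥ (|Q| - |Bad|) m ≥ (1 - δ) |Q| m` (`θ 1 - θ y ≥ 0` by `HP.le_one`), divide by `|Q|`.
`bad_frac`: the number of `y ∈ Q` without a good lift is at most `δ |Q|`. This is contained in the proof of `ded_gl` in `Pool/Agent/Helper70/GLn/ZZ.lean` (copy and adapt): if all lifts of `y` are
not good then the `|ker ρ|` lifts give pairwise different elements of `GL(V)` which are not good, `bad_card` with `ε = δ / q`, and `|GL(V)| ≤ q |G| = q |Q| |ker ρ|` (`gl_le`).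
-/

set_option autoImplicit false

open Module Pool.Agent.Helper13.Ded

namespace Pool.Agent.Helper70.GLn

theorem av_bad {Q : Type*} [Group Q] [Finite Q] {θ : Q → ℝ} (hθ : HP θ) (Bad : Set Q) {δ m : ℝ}
    (hm : 0 ≤ m) (hbad : (Nat.card Bad : ℝ) ≤ δ * Nat.card Q)
    (hgood : ∀ y, y ∉ Bad → m ≤ θ 1 - θ y) : (1 - δ) * m ≤ θ 1 - av θ := by
  classical
  have := Fintype.ofFinite Q
  have hQ : (0 : ℝ) < Fintype.card Q := by exact_mod_cast Fintype.card_pos
  have hle : ∀ y, θ y ≤ θ 1 := fun y => hθ.le_one y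
  have h1 : ∑ y : Q, (if y ∈ Bad then (0 : ℝ) else m) ≤ ∑ y : Q, (θ 1 - θ y) := by
    refine Finset.sum_le_sum fun y _ => ?_
    split_ifs with h
    · linarith [hle y]
    · exact hgood y h
  have h2 : ∑ y : Q, (if y ∈ Bad then (0 : ℝ) else m) =
      ((Fintype.card Q : ℝ) - Nat.card Bad) * m := by
    have h3 : ∀ y : Q, (if y ∈ Bad then (0 : ℝ) else m) = m - (if y ∈ Bad then m else 0) := by
      intro y
      split_ifs <;> simp
    rw [Finset.sum_congr rfl (fun y _ => h3 y), Finset.sum_sub_distrib, Finset.sum_const,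
      ← Finset.sum_filter, Finset.sum_const, nsmul_eq_mul, nsmul_eq_mul, Finset.card_univ]
    have h4 : Nat.card Bad = (Finset.univ.filter (fun y => y ∈ Bad)).card := by
      rw [Nat.card_eq_fintype_card]
      exact Fintype.card_subtype _
    rw [h4]
    ring
  have h5 : ∑ y : Q, (θ 1 - θ y) = Fintype.card Q * θ 1 - ∑ y, θ y := by
    rw [Finset.sum_sub_distrib, Finset.sum_const, nsmul_eq_mul, Finset.card_univ]
  rw [h2, h5] at h1
  rw [Nat.card_eq_fintype_card (α := Q)] at hbad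
  unfold av
  rw [finsum_eq_sum_of_fintype, Nat.card_eq_fintype_card]
  have h6 : (1 - δ) * m * Fintype.card Q ≤
      (θ 1 - (∑ y, θ y) / Fintype.card Q) * Fintype.card Q := by
    rw [sub_mul (θ 1), div_mul_cancel₀ _ hQ.ne']
    nlinarith [mul_le_mul_of_nonneg_right hbad hm]
  exact le_of_mul_le_mul_right h6 hQ

theorem bad_frac (F : Type) [Field F] [Finite F] {δ : ℝ} (hδ : 0 < δ) (R : ℕ) : ∃ n0 : ℕ,
    ∀ (V : Type) [AddCommGroup V] [Module F V] [Finite V], n0 ≤ finrank F V →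
    ∀ (G : Subgroup (V ≃ₗ[F] V)), (∀ g : V ≃ₗ[F] V, LinearEquiv.det g = 1 → g ∈ G) →
    ∀ {Q : Type*} [Group Q] (ρ : G →* Q), Function.Surjective ρ →
    (Nat.card {y : Q // ∀ g : G, ρ g = y → ¬ Good R (g : V ≃ₗ[F] V)} : ℝ) ≤ δ * Nat.card Q := by
  classical
  have hq : (0 : ℝ) < Nat.card F := by exact_mod_cast Nat.card_pos
  obtain ⟨n1, hn1⟩ := bad_card F (ε := δ / Nat.card F) (by positivity) R
  refine ⟨n1, ?_⟩
  intro V _ _ _ hV G hG Q _ ρ hρ
  have hQ : Finite Q := Finite.of_surjective ρ hρ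
  have h1 : Nat.card {y : Q // ∀ g : G, ρ g = y → ¬ Good R (g : V ≃ₗ[F] V)} * Nat.card ρ.ker ≤
      Nat.card {g : G // ¬ Good R (g : V ≃ₗ[F] V)} := by
    have hs : ∀ x : Q, ∃ g : G, ρ g = x := hρ
    choose s hs using hs
    rw [← Nat.card_prod]
    refine Nat.card_le_card_of_injective (fun p => (⟨s p.1.1 * p.2.1, ?_⟩ :
      {g : G // ¬ Good R (g : V ≃ₗ[F] V)})) ?_
    · refine p.1.2 (s p.1.1 * p.2.1) ?_
      rw [map_mul, hs, (MonoidHom.mem_ker).1 p.2.2, mul_one]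
    · rintro ⟨⟨x, hx⟩, ⟨k, hk1⟩⟩ ⟨⟨y, hy⟩, ⟨l, hl1⟩⟩ hxy
      have h4 : s x * k = s y * l := congrArg Subtype.val hxy
      have h5 : x = y := by
        have h6 := congrArg ρ h4
        rw [map_mul, map_mul, hs, hs, (MonoidHom.mem_ker).1 hk1, (MonoidHom.mem_ker).1 hl1,
          mul_one, mul_one] at h6
        exact h6
      subst h5
      have h7 : k = l := mul_left_cancel h4
      subst h7
      rfl
  have h2 : Nat.card {g : G // ¬ Good R (g : V ≃ₗ[F] V)} ≤
      Nat.card {g : V ≃ₗ[F] V // ¬ Good R g} :=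
    Nat.card_le_card_of_injective (fun x => ⟨x.1.1, x.2⟩) fun x y hxy =>
      Subtype.ext (Subtype.ext (congrArg (fun z : {g : V ≃ₗ[F] V // ¬ Good R g} => z.1) hxy))
  have h3 := hn1 V hV
  have h4 := gl_le hG
  have h5 : Nat.card G = Nat.card Q * Nat.card ρ.ker := by
    rw [← Subgroup.card_mul_index ρ.ker, Subgroup.index_ker, mul_comm,
      MonoidHom.range_eq_top.2 hρ]
    congr 1
    exact Nat.card_congr (Subgroup.topEquiv).toEquiv
  have h6 : (0 : ℝ) < Nat.card ρ.ker := by exact_mod_cast Nat.card_pos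
  have h7 : (Nat.card {y : Q // ∀ g : G, ρ g = y → ¬ Good R (g : V ≃ₗ[F] V)} : ℝ) *
      Nat.card ρ.ker ≤ δ / Nat.card F * GLc F V := by
    refine le_trans ?_ h3
    exact_mod_cast h1.trans h2
  have h8 : (GLc F V : ℝ) ≤ Nat.card F * (Nat.card Q * Nat.card ρ.ker) := by
    rw [h5] at h4
    have h9 : (Nat.card F - 1) * (Nat.card Q * Nat.card ρ.ker) ≤
        Nat.card F * (Nat.card Q * Nat.card ρ.ker) := Nat.mul_le_mul_right _ (Nat.sub_le _ _)
    exact_mod_cast h4.trans h9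
  have h9 : (Nat.card {y : Q // ∀ g : G, ρ g = y → ¬ Good R (g : V ≃ₗ[F] V)} : ℝ) *
      Nat.card ρ.ker ≤ δ / Nat.card F * (Nat.card F * (Nat.card Q * Nat.card ρ.ker)) :=
    h7.trans (mul_le_mul_of_nonneg_left h8 (by positivity))
  have h10 : δ / Nat.card F * (Nat.card F * (Nat.card Q * Nat.card ρ.ker)) =
      (δ * Nat.card Q) * Nat.card ρ.ker := by
    field_simp
  rw [h10] at h9
  exact le_of_mul_le_mul_right h9 h6

end Pool.Agent.Helper70.GLn
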