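import Pool.Agent.Helper70.GLw.LT
import Pool.Agent.Helper70.GLw.FQ
import Pool.Agent.Helper37.Ded.Rad

/-!
# Project GW: the Dedekind inequality for linear groups (final form)
-/

set_option autoImplicit false

open Module Pool.Agent.Helper13.Ded

namespace Pool.Agent.Helper70.GLn

/-- Central version: all scalars of `G` are in the kernel of `ρ`. -/
theorem ded_gl2 (F : Type) [Field F] [Finite F] (h : ℕ) : ∃ C : ℕ,
    ∀ (V : Type) [AddCommGroup V] [Module F V] [Finite V], C ≤ finrank F V →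
    ∀ (G : Subgroup (V ≃ₗ[F] V)), (∀ g : V ≃ₗ[F] V, LinearEquiv.det g = 1 → g ∈ G) →
    ∀ {Q : Type*} [Group Q] (ρ : G →* Q), Function.Surjective ρ →
    (∀ g : G, ρ g = 1 ↔ ∃ a : F, ∀ v, (g : V ≃ₗ[F] V) v = a • v) →
    ∀ H : Subgroup Q, Nat.card H ≤ h →
    (∀ x ∈ H, ∃ g : G, LinearEquiv.det (g : V ≃ₗ[F] V) = 1 ∧ ρ g = x) →
    (∃ v : V, ∀ g : G, LinearEquiv.det (g : V ≃ₗ[F] V) = 1 → ρ g ∈ H →
      ∀ a : F, (g : V ≃ₗ[F] V) v = a • v → a ^ finrank F V = 1) → Ded H := by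
  classical
  obtain ⟨c, hc0, hc1, hsum⟩ := sum_bound F (h * Nat.card F)
  have hqF : 1 ≤ Nat.card F := Nat.card_pos
  have hh : (0 : ℝ) ≤ (h * Nat.card F : ℕ) := Nat.cast_nonneg _
  obtain ⟨ε, hε⟩ : ∃ ε : ℝ, ε = c / (4 * ((h * Nat.card F : ℕ) + 1)) := ⟨_, rfl⟩
  have hε0 : 0 < ε := by rw [hε]; positivity
  have hε1 : ε ≤ 1 / 4 := by
    rw [hε, div_le_iff₀ (by positivity)]
    nlinarith
  obtain ⟨R, -, hR⟩ := nn_compare F hε0
  obtain ⟨n0, hn0⟩ := hsum R
  obtain ⟨n1, hn1⟩ := bad_frac F hε0 R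
  refine ⟨max 1 (max n0 n1), ?_⟩
  intro V _ _ _ hV G hG Q _ ρ hρ hk H hH hlift hv
  have hV1 : 1 ≤ finrank F V := (le_max_left _ _).trans hV
  have hV0 : n0 ≤ finrank F V := ((le_max_left _ _).trans (le_max_right _ _)).trans hV
  have hV2 : n1 ≤ finrank F V := ((le_max_right _ _).trans (le_max_right _ _)).trans hV
  have hQ : Finite Q := Finite.of_surjective ρ hρ
  obtain ⟨σ, hσ⟩ : ∃ σ : SpecialLinearGroup F V →* Q, σ = ρ.comp (inc hG) := ⟨_, rfl⟩
  have hσx : ∀ x, σ x = ρ (inc hG x) := fun x => by rw [hσ]; rfl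
  obtain ⟨v₀, hv₀⟩ := hv
  have hVn : Nontrivial V := Module.nontrivial_of_finrank_pos (R := F) (by omega)
  obtain ⟨w₀, hw₀⟩ := exists_ne (0 : V)
  -- the kernel
  have hker : ∀ x : SpecialLinearGroup F V, σ x = 1 → ∃ a : F, ∀ v, x v = a • v := by
    intro x hx
    rw [hσx] at hx
    exact (hk _).1 hx
  have hkc : Nat.card σ.ker ≤ Nat.card F := by
    choose b hb using fun x : σ.ker => hker x x.2
    refine Nat.card_le_card_of_injective b ?_
    intro x y hxy
    apply Subtype.ext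
    apply Subtype.ext
    ext v
    have h1 := hb x v
    have h2 := hb y v
    rw [hxy, ← h2] at h1
    exact h1
  obtain ⟨T, hT⟩ : ∃ T : Subgroup (SpecialLinearGroup F V), T = H.comap σ := ⟨_, rfl⟩
  have hmem : ∀ x, x ∈ T ↔ σ x ∈ H := fun x => by rw [hT]; rfl
  let τ : T →* H := { toFun := fun x => ⟨σ x, (hmem x).1 x.2⟩
                      map_one' := Subtype.ext (map_one σ)
                      map_mul' := fun x y => Subtype.ext (map_mul σ _ _) }
  have hτ : Function.Surjective τ := by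
    rintro ⟨y, hy⟩
    obtain ⟨g, hg1, hg2⟩ := hlift y hy
    have h1 : inc hG (⟨(g : V ≃ₗ[F] V), hg1⟩ : SpecialLinearGroup F V) = g := Subtype.ext rfl
    have h2 : σ (⟨(g : V ≃ₗ[F] V), hg1⟩ : SpecialLinearGroup F V) = y := by
      rw [hσx, h1, hg2]
    exact ⟨⟨⟨(g : V ≃ₗ[F] V), hg1⟩, (hmem _).2 (by rw [h2]; exact hy)⟩, Subtype.ext h2⟩
  have hTc : Nat.card T ≤ h * Nat.card F := by
    have h1 : Nat.card T = Nat.card H * Nat.card τ.ker := by
      rw [← Subgroup.card_mul_index τ.ker, Subgroup.index_ker, mul_comm,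
        MonoidHom.range_eq_top.2 hτ]
      congr 1
      exact Nat.card_congr (Subgroup.topEquiv).toEquiv
    have h2 : Nat.card τ.ker ≤ Nat.card σ.ker := by
      refine Nat.card_le_card_of_injective (fun x : τ.ker => (⟨(x : T), ?_⟩ : σ.ker)) ?_
      · have h3 := (MonoidHom.mem_ker).1 x.2
        exact (MonoidHom.mem_ker).2 (congrArg Subtype.val h3)
      · intro x y hxy
        exact Subtype.ext (Subtype.ext (congrArg (fun z : σ.ker => (z : SpecialLinearGroup F V)) hxy))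
    rw [h1]
    exact Nat.mul_le_mul hH (h2.trans hkc)
  intro θ hθ
  have hθ' : HP (fun x => θ (σ x)) := hθ.comp σ
  have hθG : HP (fun g : G => θ (ρ g)) := hθ.comp ρ
  have hz : ∀ z x : SpecialLinearGroup F V, (∃ a : F, ∀ v, z v = a • v) →
      (fun x => θ (σ x)) (z * x) = (fun x => θ (σ x)) x := by
    intro z x hzx
    have h1 : σ z = 1 := by
      rw [hσx]
      exact (hk _).2 hzx
    show θ (σ (z * x)) = θ (σ x)
    rw [map_mul, h1, one_mul]
  obtain ⟨W, hW, hle⟩ := hn0 V hV0 (fun x => θ (σ x)) hθ' hz T hTc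
    ⟨v₀, fun x hx a hxa => hv₀ (inc hG x) x.2 (by rw [← hσx]; exact (hmem x).1 hx) a hxa⟩
  have hnn : 0 ≤ nn (fun x => θ (σ x)) (EE W W) := nn_nonneg hθ' _
  obtain ⟨m, hm⟩ : ∃ m, m = nn (fun x => θ (σ x)) (EE W W) := ⟨_, rfl⟩
  rw [← hm] at hle hnn
  have hTpos : (0 : ℝ) < Nat.card T := by exact_mod_cast Nat.card_pos
  have hTc' : (Nat.card T : ℝ) ≤ (h * Nat.card F : ℕ) := by exact_mod_cast hTc
  -- the average over `H`
  have hH1 : θ 1 - av (fun x : H => θ x) ≤ (1 - 2 * ε) * m := by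
    have h1 : av (fun x : H => θ x) = av (fun x : T => θ (σ x)) := by
      rw [← av_comp_surj τ hτ]
      rfl
    have h2 : (Nat.card T : ℝ) * (θ 1 - av (fun x : T => θ (σ x))) ≤
        ((Nat.card T : ℝ) - c) * m := by
      have := Fintype.ofFinite T
      have h3 : (Nat.card T : ℝ) * av (fun x : T => θ (σ x)) = ∑ᶠ x : T, θ (σ x) := by
        unfold av
        rw [mul_div_cancel₀ _ hTpos.ne']
      have h4 : ∑ᶠ x : T, ((fun x => θ (σ x)) 1 - (fun x => θ (σ x)) (x : SpecialLinearGroup F V)) =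
          (Nat.card T : ℝ) * θ 1 - ∑ᶠ x : T, θ (σ x) := by
        rw [finsum_eq_sum_of_fintype, finsum_eq_sum_of_fintype, Finset.sum_sub_distrib,
          Finset.sum_const, Finset.card_univ, nsmul_eq_mul, Nat.card_eq_fintype_card]
        show (Fintype.card T : ℝ) * θ (σ 1) - _ = _
        rw [map_one]
      rw [h4, ← h3] at hle
      linarith
    rw [h1]
    have h5 : ((Nat.card T : ℝ) - c) * m ≤ (Nat.card T : ℝ) * ((1 - 2 * ε) * m) := by
      have h6 : (Nat.card T : ℝ) * (2 * ε) ≤ c := by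
        have h7 : (Nat.card T : ℝ) * (2 * ε) ≤ ((h * Nat.card F : ℕ) + 1) * (2 * ε) :=
          mul_le_mul_of_nonneg_right (by linarith) (by linarith)
        have h8 : (((h * Nat.card F : ℕ) : ℝ) + 1) * (2 * ε) = c / 2 := by
          rw [hε]
          field_simp
          norm_num
        linarith
      have h9 : (Nat.card T : ℝ) * (2 * ε) * m ≤ c * m := mul_le_mul_of_nonneg_right h6 hnn
      linarith
    exact le_of_mul_le_mul_left (h2.trans h5) hTpos
  -- the average over `Q`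
  have hQ1 : (1 - ε) * (m / (1 + ε)) ≤ θ 1 - av θ := by
    refine av_bad hθ {y : Q | ∀ g : G, ρ g = y → ¬ Good R (g : V ≃ₗ[F] V)}
      (div_nonneg hnn (by linarith)) (hn1 V hV2 G hG ρ hρ) ?_
    intro y hy
    obtain ⟨g', hg', hgood⟩ : ∃ g' : G, ρ g' = y ∧ Good R (g' : V ≃ₗ[F] V) := by
      by_contra hcon
      exact hy fun g hg hgd => hcon ⟨g, hg, hgd⟩
    obtain ⟨W', hW', hle'⟩ := good_le hG hθG g' hgood
    have hcomp := hR V (fun x => θ (σ x)) hθ' W W W' W' hW hW'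
    rw [← hm] at hcomp
    have e1 : nn (fun s => (fun g : G => θ (ρ g)) (inc hG s)) (EE W' W') =
        nn (fun x => θ (σ x)) (EE W' W') := by
      rw [hσ]
      rfl
    rw [e1] at hle'
    simp only [hg', map_one] at hle'
    rw [div_le_iff₀ (by linarith)]
    have := mul_le_mul_of_nonneg_left hle' (show (0 : ℝ) ≤ 1 + ε by linarith)
    linarith
  have hfin : (1 - 2 * ε) * m ≤ (1 - ε) * (m / (1 + ε)) := by
    rw [mul_div_assoc', le_div_iff₀ (by linarith)]
    have h1 : (1 - 2 * ε) * (1 + ε) ≤ 1 - ε := by nlinarith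
    have h2 := mul_le_mul_of_nonneg_right h1 hnn
    linarith
  linarith

/-- The Dedekind inequality for linear groups modulo scalars. -/
theorem ded_gl3 (F : Type) [Field F] [Finite F] (h : ℕ) : ∃ C : ℕ,
    ∀ (V : Type) [AddCommGroup V] [Module F V] [Finite V], C ≤ finrank F V →
    ∀ (G : Subgroup (V ≃ₗ[F] V)), (∀ g : V ≃ₗ[F] V, LinearEquiv.det g = 1 → g ∈ G) →
    ∀ {Q : Type*} [Group Q] (ρ : G →* Q), Function.Surjective ρ →
    (∀ g : G, ρ g = 1 → ∃ a : F, ∀ v, (g : V ≃ₗ[F] V) v = a • v) →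
    ∀ H : Subgroup Q, Nat.card H ≤ h →
    (∀ x ∈ H, ∃ g : G, LinearEquiv.det (g : V ≃ₗ[F] V) = 1 ∧ ρ g = x) →
    (∃ v : V, ∀ g : G, LinearEquiv.det (g : V ≃ₗ[F] V) = 1 → ρ g ∈ H →
      ∀ a : F, (g : V ≃ₗ[F] V) v = a • v → a ^ finrank F V = 1) → Ded H := by
  classical
  obtain ⟨C, hC⟩ := ded_gl2 F h
  refine ⟨max 1 C, ?_⟩
  intro V _ _ _ hV G hG Q _ ρ hρ hk H hH hlift hv
  have hV1 : 1 ≤ finrank F V := (le_max_left _ _).trans hV
  have hVn : Nontrivial V := Module.nontrivial_of_finrank_pos (R := F) (by omega)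
  obtain ⟨w₀, hw₀⟩ := exists_ne (0 : V)
  have hQ : Finite Q := Finite.of_surjective ρ hρ
  -- the scalars
  let Z : Subgroup G :=
    { carrier := {g | ∃ a : F, ∀ v, (g : V ≃ₗ[F] V) v = a • v}
      mul_mem' := by
        rintro g g' ⟨a, ha⟩ ⟨b, hb⟩
        refine ⟨b * a, fun v => ?_⟩
        show (g : V ≃ₗ[F] V) ((g' : V ≃ₗ[F] V) v) = _
        rw [hb, map_smul, ha, smul_smul]
      one_mem' := ⟨1, fun v => (one_smul F v).symm⟩
      inv_mem' := by
        rintro g ⟨a, ha⟩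
        have ha0 : a ≠ 0 := by
          rintro rfl
          have h2 := ha w₀
          rw [zero_smul] at h2
          exact hw₀ ((LinearEquiv.map_eq_zero_iff _).1 h2)
        refine ⟨a⁻¹, fun v => ?_⟩
        show (g : V ≃ₗ[F] V).symm v = a⁻¹ • v
        rw [LinearEquiv.symm_apply_eq, ha, smul_smul, mul_inv_cancel₀ ha0, one_smul] }
  have hZmem : ∀ g : G, g ∈ Z ↔ ∃ a : F, ∀ v, (g : V ≃ₗ[F] V) v = a • v := fun g => Iff.rfl
  have hZc : ∀ g ∈ Z, ∀ g' : G, g * g' = g' * g := by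
    rintro g ⟨a, ha⟩ g'
    apply Subtype.ext
    ext v
    show (g : V ≃ₗ[F] V) ((g' : V ≃ₗ[F] V) v) = (g' : V ≃ₗ[F] V) ((g : V ≃ₗ[F] V) v)
    rw [ha, ha, map_smul]
  -- the image of the scalars
  let Y : Subgroup Q := Z.map ρ
  have hYc : ∀ y ∈ Y, ∀ q : Q, y * q = q * y := by
    rintro _ ⟨z, hz, rfl⟩ q
    obtain ⟨g, rfl⟩ := hρ q
    rw [← map_mul, hZc z hz g, map_mul]
  have hYn : Y.Normal := ⟨fun y hy q => by rw [← hYc y hy q, mul_inv_cancel_right]; exact hy⟩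
  have hker : ∀ g : G, (QuotientGroup.mk' Y).comp ρ g = 1 ↔
      ∃ a : F, ∀ v, (g : V ≃ₗ[F] V) v = a • v := by
    intro g
    rw [MonoidHom.comp_apply, QuotientGroup.mk'_apply, QuotientGroup.eq_one_iff, ← hZmem]
    constructor
    · rintro ⟨z, hz, hzg⟩
      have h1 : ρ (z⁻¹ * g) = 1 := by rw [map_mul, map_inv, hzg, inv_mul_cancel]
      have h2 := (hZmem _).2 (hk _ h1)
      have h3 := Z.mul_mem hz h2
      rwa [mul_inv_cancel_left] at h3
    · intro hg
      exact ⟨g, hg, rfl⟩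
  have hsolv : Group.IsSolvable (QuotientGroup.mk' Y).ker := by
    rw [QuotientGroup.ker_mk']
    have hcom : ∀ a b : Y, a * b = b * a := fun a b => Subtype.ext (hYc a a.2 b)
    letI : CommGroup Y := { (inferInstance : Group Y) with mul_comm := hcom }
    infer_instance
  refine Pool.Agent.Helper37.Rad.ded_of_surj_solvable_ker (QuotientGroup.mk' Y)
    (QuotientGroup.mk'_surjective Y) H ?_
  refine hC V ((le_max_right _ _).trans hV) G hG ((QuotientGroup.mk' Y).comp ρ)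
    ((QuotientGroup.mk'_surjective Y).comp hρ) hker _ ?_ ?_ ?_
  · exact (Nat.card_le_card_of_surjective _ ((QuotientGroup.mk' Y).subgroupMap_surjective H)).trans
      hH
  · rintro _ ⟨x, hx, rfl⟩
    obtain ⟨g, hg1, hg2⟩ := hlift x hx
    exact ⟨g, hg1, by rw [MonoidHom.comp_apply, hg2]⟩
  · obtain ⟨v, hv⟩ := hv
    refine ⟨v, ?_⟩
    rintro g hg1 ⟨x, hx, hxg⟩ a hga
    -- `g` is a scalar times an element over `x`
    obtain ⟨y, hy1, hy2⟩ := hlift x hx
    have h1 : ((QuotientGroup.mk' Y).comp ρ) (y⁻¹ * g) = 1 := by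
      rw [map_mul, map_inv, ← hxg, MonoidHom.comp_apply, hy2, inv_mul_cancel]
    obtain ⟨b, hb⟩ := (hker _).1 h1
    have hb0 : b ≠ 0 := by
      rintro rfl
      have h2 := hb w₀
      rw [zero_smul] at h2
      exact hw₀ ((LinearEquiv.map_eq_zero_iff _).1 h2)
    have h2 : (g : V ≃ₗ[F] V) = (y : V ≃ₗ[F] V) * ((y⁻¹ * g : G) : V ≃ₗ[F] V) := by
      rw [Subgroup.coe_mul, Subgroup.coe_inv, mul_inv_cancel_left]
    have h3 : LinearEquiv.det ((y⁻¹ * g : G) : V ≃ₗ[F] V) = 1 := by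
      rw [h2, map_mul, hy1, one_mul] at hg1
      exact hg1
    have h4 : b ^ finrank F V = 1 := by
      have h5 : (((y⁻¹ * g : G) : V ≃ₗ[F] V) : V →ₗ[F] V) = b • LinearMap.id :=
        LinearMap.ext fun v => hb v
      have h6 := congrArg Units.val h3
      rw [LinearEquiv.coe_det, h5, LinearMap.det_smul, LinearMap.det_id, mul_one] at h6
      exact h6
    have h7 : (y : V ≃ₗ[F] V) v = (b⁻¹ * a) • v := by
      have h8 : (g : V ≃ₗ[F] V) v = b • (y : V ≃ₗ[F] V) v := by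
        rw [h2]
        show (y : V ≃ₗ[F] V) (((y⁻¹ * g : G) : V ≃ₗ[F] V) v) = _
        rw [hb, map_smul]
      rw [mul_smul, ← hga, h8, smul_smul, inv_mul_cancel₀ hb0, one_smul]
    have h9 := hv y hy1 (by rw [hy2]; exact hx) _ h7
    rw [mul_pow, inv_pow, h4, inv_one, one_mul] at h9
    exact h9

end Pool.Agent.Helper70.GLn
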