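import Pool.Agent.Helper70.GLn.MX

/-!
# Project GW: from matrices to linear equivalences (proved)
-/

set_option autoImplicit false

namespace Pool.Agent.Helper70.GLn

theorem linear_conv2 {F : Type} [Field F] {n : ℕ} {Q : Type*} [Group Q] (H : Subgroup Q)
    (G : Subgroup (Matrix (Fin n) (Fin n) F)ˣ) (ρ : G →* Q)
    (h1 : ∀ g : (Matrix (Fin n) (Fin n) F)ˣ, g.1.det = 1 → g ∈ G) (hρ : Function.Surjective ρ)
    (hk : ∀ g : G, ρ g = 1 → ∃ a : F, g.1.1 = a • 1) :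
    ∃ (G' : Subgroup ((Fin n → F) ≃ₗ[F] (Fin n → F))) (ρ' : G' →* Q),
      (∀ g : (Fin n → F) ≃ₗ[F] (Fin n → F), LinearEquiv.det g = 1 → g ∈ G') ∧
      Function.Surjective ρ' ∧
      (∀ g : G', ρ' g = 1 → ∃ a : F, ∀ v, (g : (Fin n → F) ≃ₗ[F] (Fin n → F)) v = a • v) ∧
      ((∀ x ∈ H, ∃ g : G, g.1.1.det = 1 ∧ ρ g = x) →
        ∀ x ∈ H, ∃ g : G', LinearEquiv.det (g : (Fin n → F) ≃ₗ[F] (Fin n → F)) = 1 ∧
          ρ' g = x) ∧
      ((∃ v : Fin n → F, ∀ (g : G) (a : F), g.1.1.det = 1 → ρ g ∈ H →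
        g.1.1.mulVec v = a • v → a ^ n = 1) →
      ∃ v : Fin n → F, ∀ g : G', LinearEquiv.det (g : (Fin n → F) ≃ₗ[F] (Fin n → F)) = 1 →
        ρ' g ∈ H → ∀ a : F, (g : (Fin n → F) ≃ₗ[F] (Fin n → F)) v = a • v → a ^ n = 1) := by
  let E := mx F n
  let i : G ≃* G.map E.toMonoidHom := E.subgroupMap G
  have hi : ∀ x : G, (ρ.comp i.symm.toMonoidHom) (i x) = ρ x := by
    intro x
    have h3 : (ρ.comp i.symm.toMonoidHom) (i x) = ρ (i.symm (i x)) := rfl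
    rw [h3, i.symm_apply_apply]
  have hix : ∀ x : G, ((i x : G.map E.toMonoidHom) : (Fin n → F) ≃ₗ[F] (Fin n → F)) =
      mx F n x.1 := fun _ => rfl
  have hmv : ∀ (x : G) (v : Fin n → F), (mx F n x.1) v = x.1.1.mulVec v := by
    intro x v
    have h5 : (mx F n x.1) v = Matrix.toLin' x.1.1 v := by rw [← mx_coe]; rfl
    rw [h5, Matrix.toLin'_apply]
  refine ⟨G.map E.toMonoidHom, ρ.comp i.symm.toMonoidHom, ?_, ?_, ?_, ?_, ?_⟩
  · intro g hg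
    obtain ⟨x, rfl⟩ := E.surjective g
    exact ⟨x, h1 x ((mx_det x).1 hg), rfl⟩
  · exact hρ.comp i.symm.surjective
  · intro g hg
    obtain ⟨x, rfl⟩ := i.surjective g
    rw [hi] at hg
    obtain ⟨a, ha⟩ := hk x hg
    refine ⟨a, fun v => ?_⟩
    rw [hix, hmv, ha, Matrix.smul_mulVec, Matrix.one_mulVec]
  · intro hH x hx
    obtain ⟨g, hg1, hg2⟩ := hH x hx
    exact ⟨i g, by rw [hix]; exact (mx_det g.1).2 hg1, by rw [hi, hg2]⟩
  · rintro ⟨v, hv⟩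
    refine ⟨v, ?_⟩
    intro g hg hgH a hga
    obtain ⟨x, rfl⟩ := i.surjective g
    rw [hi] at hgH
    rw [hix] at hg hga
    rw [hmv] at hga
    exact hv x a ((mx_det x.1).1 hg) hgH hga

end Pool.Agent.Helper70.GLn
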