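import Mathlib

/-!
# GW-UQ: few elements do not cover the space by eigenvectors (80-150 lines)

PROOF. `q = |F|`, `n = finrank V`. `eig_card`: let `x` not be a scalar, `E a = ker (x - a)`. The `E a` are independent (`Module.End.eigenspaces_iSupIndep`), so the sum of their dimensions is at most `n`; all are
proper, so with `d` = the maximum, `1 ≤ d ≤ n - 1` (if there is an eigenvector), the number of nonzero eigenvectors is `∑ (q ^ (dim E a) - 1) ≤ (q ^ d - 1) + (q ^ (n - d) - 1) ≤ q ^ (n - 1) + q - 2`.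
(Any other proof is fine, e.g.: fix an eigenvalue `b` with `dim E b` maximal; if `dim E b = n - 1` all other eigenvectors lie in a line; otherwise all `E a` have at most `q ^ (n - 2)` elements, and there are at most
`q - 1` eigenvalues.) `special_of_card`: for every `y ∈ H` which has one choose a lift `s y ∈ G` with determinant 1. If `g` with determinant 1 lies over `y`, then `g = b • s y` with a scalar `b`, `b ^ n = 1` (determinants).
If `s y` is a scalar `c` then `c ^ n = 1`, and `g v = a v`, `v ≠ 0` give `a = b c`, `a ^ n = 1`. This applies to `y = 1`. So it suffices to choose `v ≠ 0` which is not an eigenvector of any `s y` which is not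
a scalar; there are at most `q - 1` such `y`, and `(q - 1) (q ^ (n - 1) + q - 2) < q ^ n - 1` for `n ≥ 3`.
-/

set_option autoImplicit false

open Module

namespace Pool.Agent.Helper70.GLn

theorem eig_card {F V : Type} [Field F] [Finite F] [AddCommGroup V] [Module F V] [Finite V]
    (hV : 2 ≤ finrank F V) (x : V ≃ₗ[F] V) (hx : ¬ ∃ a : F, ∀ v, x v = a • v) :
    Nat.card {v : V // v ≠ 0 ∧ ∃ a : F, x v = a • v} + 2 ≤
      Nat.card F ^ (finrank F V - 1) + Nat.card F := by
  classical
  set q := Nat.card F with hq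
  have hq2 : 2 ≤ q := by
    rw [hq]
    exact Finite.one_lt_card
  set n := finrank F V with hn
  set S : Set V := {v : V | v ≠ 0 ∧ ∃ a : F, x v = a • v} with hS
  have hSc : Nat.card {v : V // v ≠ 0 ∧ ∃ a : F, x v = a • v} = S.ncard := rfl
  rw [hSc]
  rcases S.eq_empty_or_nonempty with hE | ⟨v0, hv0, b, hb⟩
  · rw [hE, Set.ncard_empty]
    have : 1 ≤ q ^ (n - 1) := Nat.one_le_pow _ _ (by omega)
    omega
  let f : Module.End F V := (x : V →ₗ[F] V)
  have hfx : ∀ v, f v = x v := fun v => rfl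
  set E : Submodule F V := f.eigenspace b with hEdef
  set W : Submodule F V := ⨆ a, ⨆ (_ : a ≠ b), f.eigenspace a with hWdef
  have hdis : Disjoint E W := (Module.End.eigenspaces_iSupIndep f) b
  have hsum : finrank F E + finrank F W ≤ n :=
    Submodule.finrank_add_finrank_le_of_disjoint hdis
  have hEV : E ≠ ⊤ := by
    intro htop
    apply hx
    refine ⟨b, fun v => ?_⟩
    have h1 : v ∈ E := by
      rw [htop]
      exact Submodule.mem_top
    rw [← hfx]
    exact Module.End.mem_eigenspace_iff.1 h1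
  have hE1 : 1 ≤ finrank F E := by
    rw [Nat.one_le_iff_ne_zero]
    intro h0
    have h1 : E = ⊥ := Submodule.finrank_eq_zero.1 h0
    have h2 : v0 ∈ E := Module.End.mem_eigenspace_iff.2 hb
    rw [h1, Submodule.mem_bot] at h2
    exact hv0 h2
  have hEn : finrank F E < n := Submodule.finrank_lt hEV
  have hcE : (E : Set V).ncard = q ^ finrank F E := by
    have h1 : (E : Set V).ncard = Nat.card E := rfl
    rw [h1, Module.natCard_eq_pow_finrank (K := F)]
  have hcW : (W : Set V).ncard = q ^ finrank F W := by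
    have h1 : (W : Set V).ncard = Nat.card W := rfl
    rw [h1, Module.natCard_eq_pow_finrank (K := F)]
  have hint : ((E : Set V) ∩ (W : Set V)) = {0} := by
    have h1 := hdis.eq_bot
    ext v
    constructor
    · rintro ⟨h2, h3⟩
      have h4 : v ∈ E ⊓ W := ⟨h2, h3⟩
      rw [h1, Submodule.mem_bot] at h4
      exact h4
    · intro h2
      rw [Set.mem_singleton_iff.1 h2]
      exact ⟨E.zero_mem, W.zero_mem⟩
  have hU := Set.ncard_union_add_ncard_inter (E : Set V) (W : Set V)
  rw [hint, Set.ncard_singleton, hcE, hcW] at hU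
  have hsub : insert (0 : V) S ⊆ (E : Set V) ∪ (W : Set V) := by
    rintro v (rfl | ⟨hv, a, ha⟩)
    · exact Or.inl E.zero_mem
    · rcases eq_or_ne a b with rfl | hab
      · exact Or.inl (Module.End.mem_eigenspace_iff.2 ha)
      · right
        have h1 : f.eigenspace a ≤ W := le_iSup₂_of_le a hab le_rfl
        exact h1 (Module.End.mem_eigenspace_iff.2 ha)
  have h0S : (0 : V) ∉ S := fun h => h.1 rfl
  have hcard : S.ncard + 1 ≤ ((E : Set V) ∪ (W : Set V)).ncard := by
    rw [← Set.ncard_insert_of_notMem h0S]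
    exact Set.ncard_le_ncard hsub
  have hWq : q ^ finrank F W ≤ q ^ (n - finrank F E) :=
    Nat.pow_le_pow_right (by omega) (by omega)
  have hconv : q ^ finrank F E + q ^ (n - finrank F E) ≤ q ^ (n - 1) + q := by
    obtain ⟨a, ha⟩ : ∃ a, finrank F E = a + 1 := ⟨finrank F E - 1, by omega⟩
    obtain ⟨c, hc⟩ : ∃ c, n - finrank F E = c + 1 := ⟨n - finrank F E - 1, by omega⟩
    have hn1 : n - 1 = a + (c + 1) := by omega
    rw [hc, hn1, ha, pow_add q a (c + 1), pow_succ q a, pow_succ q c]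
    have h1 : 1 ≤ q ^ a := Nat.one_le_pow _ _ (by omega)
    have h2 : 1 ≤ q ^ c := Nat.one_le_pow _ _ (by omega)
    obtain ⟨A, hA⟩ : ∃ A, q ^ a = A + 1 := ⟨q ^ a - 1, by omega⟩
    obtain ⟨C, hC⟩ : ∃ C, q ^ c = C + 1 := ⟨q ^ c - 1, by omega⟩
    rw [hA, hC]
    nlinarith [Nat.zero_le (A * C * q)]
  omega

theorem special_of_card {F V : Type} [Field F] [Finite F] [AddCommGroup V] [Module F V] [Finite V]
    (hV : 3 ≤ finrank F V) (G : Subgroup (V ≃ₗ[F] V)) {Q : Type*} [Group Q] [Finite Q]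
    (ρ : G →* Q) (hk : ∀ g : G, ρ g = 1 → ∃ a : F, ∀ v, (g : V ≃ₗ[F] V) v = a • v)
    (H : Subgroup Q) (hH : Nat.card H ≤ Nat.card F) :
    ∃ v : V, ∀ g : G, LinearEquiv.det (g : V ≃ₗ[F] V) = 1 → ρ g ∈ H →
      ∀ a : F, (g : V ≃ₗ[F] V) v = a • v → a ^ finrank F V = 1 := by
  classical
  set q := Nat.card F with hq
  have hq2 : 2 ≤ q := by
    rw [hq]
    exact Finite.one_lt_card
  set n := finrank F V with hn
  have : Fintype V := Fintype.ofFinite V
  have : Fintype H := Fintype.ofFinite H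
  have hnt : Nontrivial V := Module.nontrivial_of_finrank_pos (R := F) (by omega)
  -- two lifts of the same element differ by a scalar
  have hlift : ∀ g g' : G, ρ g = ρ g' → ∃ b : F, ∀ v, (g : V ≃ₗ[F] V) v =
      b • (g' : V ≃ₗ[F] V) v := by
    intro g g' h
    obtain ⟨b, hb⟩ := hk (g * g'⁻¹) (by rw [map_mul, map_inv, h, mul_inv_cancel])
    refine ⟨b, fun v => ?_⟩
    have h1 := hb ((g' : V ≃ₗ[F] V) v)
    have h2 : ((g * g'⁻¹ : G) : V ≃ₗ[F] V) ((g' : V ≃ₗ[F] V) v) = (g : V ≃ₗ[F] V) v := by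
      have h3 : ((g * g'⁻¹ : G) : V ≃ₗ[F] V) = (g : V ≃ₗ[F] V) * (g' : V ≃ₗ[F] V)⁻¹ := rfl
      rw [h3]
      show (g : V ≃ₗ[F] V) ((g' : V ≃ₗ[F] V).symm ((g' : V ≃ₗ[F] V) v)) = _
      rw [LinearEquiv.symm_apply_apply]
    rw [h2] at h1
    exact h1
  -- determinants of proportional maps
  have hdet : ∀ (g g' : V ≃ₗ[F] V) (b : F), (∀ v, g v = b • g' v) →
      LinearEquiv.det g = 1 → LinearEquiv.det g' = 1 → b ^ n = 1 := by
    intro g g' b h h1 h2
    have h3 : (g : V →ₗ[F] V) = b • (g' : V →ₗ[F] V) := LinearMap.ext h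
    have h4 : LinearMap.det (g : V →ₗ[F] V) = 1 := by
      rw [← LinearEquiv.coe_det, h1, Units.val_one]
    have h5 : LinearMap.det (g' : V →ₗ[F] V) = 1 := by
      rw [← LinearEquiv.coe_det, h2, Units.val_one]
    rw [h3, LinearMap.det_smul, h5, mul_one] at h4
    exact h4
  have hdets : ∀ (g : V ≃ₗ[F] V) (b : F), (∀ v, g v = b • v) →
      LinearEquiv.det g = 1 → b ^ n = 1 := by
    intro g b h h1
    exact hdet g (LinearEquiv.refl F V) b h h1 (map_one LinearEquiv.det)
  -- the bad vectors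
  let B : H → Finset V := fun y => Finset.univ.filter fun v => v ≠ 0 ∧ ∃ g : G,
    LinearEquiv.det (g : V ≃ₗ[F] V) = 1 ∧ ρ g = y ∧
      (¬ ∃ a : F, ∀ v, (g : V ≃ₗ[F] V) v = a • v) ∧ ∃ a : F, (g : V ≃ₗ[F] V) v = a • v
  have hB : ∀ y, (B y).card ≤ q ^ (n - 1) + q - 2 := by
    intro y
    rcases (B y).eq_empty_or_nonempty with h0 | ⟨v0, hv0⟩
    · rw [h0, Finset.card_empty]
      exact Nat.zero_le _
    · obtain ⟨-, g0, hg0, hg0y, hg0s, -⟩ := (Finset.mem_filter.1 hv0).2
      have h1 := eig_card (by omega) (g0 : V ≃ₗ[F] V) hg0s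
      rw [← hq, ← hn] at h1
      have h2 : (B y).card ≤ Nat.card {v : V // v ≠ 0 ∧ ∃ a : F, (g0 : V ≃ₗ[F] V) v = a • v} := by
        rw [Nat.card_eq_fintype_card, Fintype.card_subtype]
        refine Finset.card_le_card fun v hv => ?_
        obtain ⟨hv, g, hg, hgy, -, a, ha⟩ := (Finset.mem_filter.1 hv).2
        refine Finset.mem_filter.2 ⟨Finset.mem_univ _, hv, ?_⟩
        obtain ⟨b, hb⟩ := hlift g0 g (by rw [hg0y, hgy])
        refine ⟨b * a, ?_⟩
        rw [hb, ha, smul_smul]
      omega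
  have hB1 : B 1 = ∅ := by
    rw [Finset.eq_empty_iff_forall_notMem]
    intro v hv
    obtain ⟨-, g, -, hgy, hgs, -⟩ := (Finset.mem_filter.1 hv).2
    exact hgs (hk g (by rw [hgy]; rfl))
  set U : Finset V := (Finset.univ.erase (1 : H)).biUnion B with hU
  have hUc : U.card ≤ (q - 1) * (q ^ (n - 1) + q - 2) := by
    refine (Finset.card_biUnion_le_card_mul _ B _ fun y _ => hB y).trans ?_
    refine Nat.mul_le_mul_right _ ?_
    rw [Finset.card_erase_of_mem (Finset.mem_univ _), Finset.card_univ,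
      ← Nat.card_eq_fintype_card]
    exact Nat.sub_le_sub_right hH 1
  have hVc : Fintype.card V = q ^ n := by
    rw [← Nat.card_eq_fintype_card, Module.natCard_eq_pow_finrank (K := F)]
  have hlt : (insert (0 : V) U).card < Fintype.card V := by
    refine lt_of_le_of_lt (Finset.card_insert_le _ _) ?_
    rw [hVc]
    have h1 : q ^ n = q ^ (n - 1) * q := by
      rw [← pow_succ]
      congr 1
      omega
    have h2 : q * q ≤ q ^ (n - 1) := by
      rw [← pow_two]
      exact Nat.pow_le_pow_right (by omega) (by omega)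
    rw [h1]
    obtain ⟨r, hr⟩ : ∃ r, q = r + 2 := ⟨q - 2, by omega⟩
    generalize q ^ (n - 1) = Q at hUc h2 ⊢
    rw [hr] at hUc h2 ⊢
    have h3 : Q + (r + 2) - 2 = Q + r := by omega
    have h4 : r + 2 - 1 = r + 1 := by omega
    rw [h3, h4] at hUc
    nlinarith
  obtain ⟨v, hv⟩ : ∃ v, v ∉ insert (0 : V) U := by
    by_contra hcon
    push Not at hcon
    have h1 : insert (0 : V) U = Finset.univ := Finset.eq_univ_iff_forall.2 hcon
    rw [h1, Finset.card_univ] at hlt
    exact lt_irrefl _ hlt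
  rw [Finset.mem_insert, not_or] at hv
  obtain ⟨hv0, hvU⟩ := hv
  refine ⟨v, fun g hg hgH a ha => ?_⟩
  by_cases hsc : ∃ c : F, ∀ v, (g : V ≃ₗ[F] V) v = c • v
  · obtain ⟨c, hc⟩ := hsc
    have h1 : a = c := by
      have h2 := hc v
      rw [ha] at h2
      exact smul_left_injective F hv0 h2
    rw [h1]
    exact hdets _ c hc hg
  · exfalso
    have hmem : v ∈ B ⟨ρ g, hgH⟩ :=
      Finset.mem_filter.2 ⟨Finset.mem_univ _, hv0, g, hg, rfl, hsc, a, ha⟩
    have hne : (⟨ρ g, hgH⟩ : H) ≠ 1 := by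
      intro h1
      rw [h1, hB1] at hmem
      exact Finset.notMem_empty _ hmem
    exact hvU (Finset.mem_biUnion.2 ⟨_, Finset.mem_erase.2 ⟨hne, Finset.mem_univ _⟩, hmem⟩)

end Pool.Agent.Helper70.GLn
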