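import Pool.Agent.Helper70.GLw.DZ
import Pool.Agent.Helper70.GLw.MX2
import Pool.Agent.Helper70.GLw.UQ

/-!
# Project GW: the Dedekind inequality for linear groups, matrix form
-/

set_option autoImplicit false

open Module Pool.Agent.Helper13.Ded

namespace Pool.Agent.Helper70.GLn

theorem ded_gl4 (F : Type) [Field F] [Finite F] (h : ℕ) : ∃ C : ℕ, ∀ n : ℕ, C ≤ n →
    ∀ {Q : Type*} [Group Q] (G : Subgroup (Matrix (Fin n) (Fin n) F)ˣ) (ρ : G →* Q),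
    (∀ g : (Matrix (Fin n) (Fin n) F)ˣ, g.1.det = 1 → g ∈ G) → Function.Surjective ρ →
    (∀ g : G, ρ g = 1 → ∃ a : F, g.1.1 = a • 1) → ∀ H : Subgroup Q, Nat.card H ≤ h →
    ((Nat.card H).Coprime (Nat.card F - 1) ∨
      ((∀ x ∈ H, ∃ g : G, g.1.1.det = 1 ∧ ρ g = x) ∧
        (Nat.card H ≤ Nat.card F ∨ ∃ v : Fin n → F, ∀ (g : G) (a : F), g.1.1.det = 1 →
          ρ g ∈ H → g.1.1.mulVec v = a • v → a ^ n = 1))) → Ded H := by
  obtain ⟨C₁, hC₁⟩ := ded_gl F h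
  obtain ⟨C₂, hC₂⟩ := ded_gl3 F h
  refine ⟨max 3 (max C₁ C₂), ?_⟩
  intro n hn Q _ G₀ ρ₀ hG₀ hρ₀ hk₀ H hH hcase
  have h1 : C₁ ≤ n := ((le_max_left _ _).trans (le_max_right _ _)).trans hn
  have h2 : C₂ ≤ n := ((le_max_right _ _).trans (le_max_right _ _)).trans hn
  have h3 : 3 ≤ n := (le_max_left _ _).trans hn
  obtain ⟨G, ρ, hG, hρ, hk, hs, hv⟩ := linear_conv2 H G₀ ρ₀ hG₀ hρ₀ hk₀
  have hrk : finrank F (Fin n → F) = n := finrank_fin_fun F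
  have hQ : Finite Q := Finite.of_surjective ρ hρ
  rcases hcase with hc | ⟨hs₀, hcase⟩
  · exact hC₁ (Fin n → F) (by rw [hrk]; exact h1) G hG ρ hρ hk H hH hc
  · refine hC₂ (Fin n → F) (by rw [hrk]; exact h2) G hG ρ hρ hk H hH (hs hs₀) ?_
    rcases hcase with hc | hc
    · exact special_of_card (by rw [hrk]; exact h3) G ρ hk H hc
    · obtain ⟨v, hv⟩ := hv hc
      refine ⟨v, ?_⟩
      rw [hrk]
      exact hv

end Pool.Agent.Helper70.GLn
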