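import Pool.Agent.Helper70.GLu.SN2

/-!
# GW-GH: lower bound for the Fourier coefficients at elements which are scalar on `A` (60-120 lines)

PROOF. Let `c ∈ Lev F A B` be the pair of scalars `(a⁻¹, a⁻¹)` (`LinearEquiv.smulOfUnit`); its determinant is `a⁻¹ ^ finrank A * a⁻¹ ^ finrank B = 1`. `l' = c * l` has
`l'.1.1 = 1`, `l'.1.2 = a⁻¹ • l.1.2`, `cact l' M = M`, i.e. `l'.1.2 (M v) = M v`; `range (l'.1.2 - 1) = range (l.1.2 - a)` (`LinearMap.range_smul`); `orderOf l' ≤ h * q`, because `c` is central and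
`c ^ (q - 1) = 1`, so `l' ^ (orderOf l * (q - 1)) = 1`. `dg c` is a scalar, so `θ (dg l' * u1 X) = θ (dg c * (dg l * u1 X)) = θ (dg l * u1 X)` by `hz`, hence `phi θ M l' = phi θ M l`. Apply
`good_lower2` to `l'`. For `phi_scal`: if `l = c⁻¹` as pairs (both components the scalar `a`) then in the same way `phi θ M l = phi θ M 1`.
-/

set_option autoImplicit false

open Module Pool.Agent.Helper13.Ded

namespace Pool.Agent.Helper70.GLn

variable {F A B : Type} [Field F] [Finite F] [AddCommGroup A] [Module F A] [Finite A]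
  [AddCommGroup B] [Module F B] [Finite B] {θ : SpecialLinearGroup F (A × B) → ℝ}

/-- the pair of scalars -/
private noncomputable def scGH47 (b : Fˣ) (hb : (b : F) ^ finrank F (A × B) = 1) : Lev F A B :=
  ⟨(DistribMulAction.toModuleAut F A b, DistribMulAction.toModuleAut F B b), by
    show LinearEquiv.det (DistribMulAction.toModuleAut F A b) *
      LinearEquiv.det (DistribMulAction.toModuleAut F B b) = 1
    apply Units.ext
    rw [Units.val_mul, LinearEquiv.coe_det, LinearEquiv.coe_det]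
    have h1 : ((DistribMulAction.toModuleAut F A b : A ≃ₗ[F] A) : A →ₗ[F] A) =
        (b : F) • LinearMap.id := rfl
    have h2 : ((DistribMulAction.toModuleAut F B b : B ≃ₗ[F] B) : B →ₗ[F] B) =
        (b : F) • LinearMap.id := rfl
    rw [h1, h2, LinearMap.det_smul, LinearMap.det_smul, LinearMap.det_id, LinearMap.det_id,
      mul_one, mul_one, ← pow_add, ← Module.finrank_prod, hb, Units.val_one]⟩

private lemma scGH47_pow (b : Fˣ) (hb : (b : F) ^ finrank F (A × B) = 1) :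
    (scGH47 (A := A) (B := B) b hb) ^ Nat.card Fˣ = 1 := by
  apply Subtype.ext
  refine Prod.ext ?_ ?_
  · show (DistribMulAction.toModuleAut F A b) ^ Nat.card Fˣ = 1
    rw [← map_pow, pow_card_eq_one', map_one]
  · show (DistribMulAction.toModuleAut F B b) ^ Nat.card Fˣ = 1
    rw [← map_pow, pow_card_eq_one', map_one]

private lemma scGH47_comm (b : Fˣ) (hb : (b : F) ^ finrank F (A × B) = 1) (l : Lev F A B) :
    Commute (scGH47 (A := A) (B := B) b hb) l := by
  apply Subtype.ext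
  refine Prod.ext ?_ ?_
  · ext v
    show (b : F) • l.1.1 v = l.1.1 ((b : F) • v)
    rw [map_smul]
  · ext v
    show (b : F) • l.1.2 v = l.1.2 ((b : F) • v)
    rw [map_smul]

private lemma phi_mul_GH47
    (hz : ∀ z x : SpecialLinearGroup F (A × B), (∃ a : F, ∀ v, z v = a • v) → θ (z * x) = θ x)
    (c l : Lev F A B) (a : F) (hc1 : ∀ v, c.1.1 v = a • v) (hc2 : ∀ v, c.1.2 v = a • v)
    (M : A →ₗ[F] B) : phi θ M (c * l) = phi θ M l := by
  unfold phi
  congr 1
  funext X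
  rw [map_mul, mul_assoc, hz (dg c) (dg l * u1 X) ⟨a, fun v => ?_⟩]
  rw [dg_apply, hc1, hc2]
  rfl

theorem good_phi (hθ : HP θ)
    (hz : ∀ z x : SpecialLinearGroup F (A × B), (∃ a : F, ∀ v, z v = a • v) → θ (z * x) = θ x)
    {h K n0 : ℕ} {κ : ℝ} (hQ : QK F (h * Nat.card F) K κ n0) (l : Lev F A B) (a : Fˣ)
    (hl : ∀ v, l.1.1 v = (a : F) • v) (ha : (a : F) ^ finrank F (A × B) = 1)
    (ho : orderOf l ≤ h)
    (hK : finrank F (LinearMap.range ((l.1.2 : B →ₗ[F] B) - (a : F) • LinearMap.id)) ≤ K)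
    {M : A →ₗ[F] B} (hM : M ≠ 0) (hfix : cact l M = M)
    (hmeet : LinearMap.range M ⊓
      LinearMap.range ((l.1.2 : B →ₗ[F] B) - (a : F) • LinearMap.id) = ⊥)
    (hdim : n0 + finrank F (LinearMap.range M) ≤ finrank F B) :
    -(κ * phi θ M 1) ≤ phi θ M l := by
  classical
  have ha' : ((a⁻¹ : Fˣ) : F) ^ finrank F (A × B) = 1 := by
    rw [Units.val_inv_eq_inv_val, inv_pow, ha, inv_one]
  have ha0 : (a : F) ≠ 0 := a.ne_zero
  set c : Lev F A B := scGH47 a⁻¹ ha' with hc
  have hc1 : ∀ v, c.1.1 v = ((a⁻¹ : Fˣ) : F) • v := fun v => rfl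
  have hc2 : ∀ v, c.1.2 v = ((a⁻¹ : Fˣ) : F) • v := fun v => rfl
  have hphi : phi θ M (c * l) = phi θ M l := phi_mul_GH47 hz c l _ hc1 hc2 M
  rw [← hphi]
  have hl1 : (c * l).1.1 = 1 := by
    ext v
    show ((a⁻¹ : Fˣ) : F) • l.1.1 v = v
    rw [hl, smul_smul, Units.inv_mul, one_smul]
  have hl2 : (((c * l).1.2 : B ≃ₗ[F] B) : B →ₗ[F] B) - LinearMap.id =
      ((a⁻¹ : Fˣ) : F) • ((l.1.2 : B →ₗ[F] B) - (a : F) • LinearMap.id) := by
    ext v
    show ((a⁻¹ : Fˣ) : F) • l.1.2 v - v = ((a⁻¹ : Fˣ) : F) • (l.1.2 v - (a : F) • v)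
    rw [smul_sub, smul_smul, Units.inv_mul, one_smul]
  have hrange : LinearMap.range ((((c * l).1.2 : B ≃ₗ[F] B) : B →ₗ[F] B) - LinearMap.id) =
      LinearMap.range ((l.1.2 : B →ₗ[F] B) - (a : F) • LinearMap.id) := by
    rw [hl2]
    exact LinearMap.range_smul _ _ (Units.ne_zero _)
  have hord : orderOf (c * l) ≤ h * Nat.card F := by
    have h1 : (c * l) ^ (orderOf l * Nat.card Fˣ) = 1 := by
      rw [(scGH47_comm a⁻¹ ha' l).mul_pow, pow_mul' c, scGH47_pow, one_pow, pow_mul,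
        pow_orderOf_eq_one, one_pow, one_mul]
    have hfin : Finite (Lev F A B) := inferInstance
    have hpos : 0 < orderOf l * Nat.card Fˣ := Nat.mul_pos (orderOf_pos l) Nat.card_pos
    have h2 := orderOf_le_of_pow_eq_one hpos h1
    have h3 : Nat.card Fˣ ≤ Nat.card F :=
      Nat.card_le_card_of_injective (fun u : Fˣ => (u : F)) Units.val_injective
    exact h2.trans (Nat.mul_le_mul ho h3)
  refine good_lower2 hθ hQ (c * l) hl1 hord (by rw [hrange]; exact hK) hM ?_
    (by rw [hrange]; exact hmeet) hdim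
  intro v
  have h4 : cact l M (a • v) = M (a • v) := by rw [hfix]
  have h5 : l.1.1.symm (a • v) = v := by
    rw [LinearEquiv.symm_apply_eq, hl]
    rfl
  have h6 : l.1.2 (M v) = (a : F) • M v := by
    have h7 : cact l M (a • v) = l.1.2 (M (l.1.1.symm (a • v))) := rfl
    rw [h7, h5] at h4
    rw [h4]
    exact map_smul M (a : F) v
  show ((a⁻¹ : Fˣ) : F) • l.1.2 (M v) = M v
  rw [h6, smul_smul, Units.inv_mul, one_smul]

theorem phi_scal
    (hz : ∀ z x : SpecialLinearGroup F (A × B), (∃ a : F, ∀ v, z v = a • v) → θ (z * x) = θ x)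
    (l : Lev F A B) (a : F) (hl : ∀ v, l.1.1 v = a • v) (hl2 : ∀ v, l.1.2 v = a • v)
    (M : A →ₗ[F] B) : phi θ M l = phi θ M 1 := by
  have h := phi_mul_GH47 hz l 1 a hl hl2 M
  rw [mul_one] at h
  exact h

end Pool.Agent.Helper70.GLn
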