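import Mathlib

/-!
# GW-GP: subspaces which do not cover a space leave a definite proportion uncovered (80-140 lines)

PROOF, induction on `h`. `h = 0`: `S = ∅`, `c = 1`. Step: let `c` be the constant for `h`. Choose `t` with `1 / q ^ t ≤ c / 2` and put
`c' = min (c / 2) (1 / q ^ ((h + 1) * t))`. Let `S` have at most `h + 1` elements. If all `U ∈ S` have codimension less than `t`, then `D = ⨅ U ∈ S, U` has codimension at most
`(h + 1) * t` and the coset `v + D` avoids all `U ∈ S`: `Nat.card D ≥ |B| / q ^ ((h + 1) t)`. Otherwise choose `U ∈ S` with codimension at least `t`, so `|U| ≤ |B| / q ^ t`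
and `S.erase U` has at most `h` elements and does not cover, so the number of `v` avoiding all of `S.erase U` is at least `c |B|`; at most `|U| ≤ c / 2 * |B|` of them are in `U`.
-/

set_option autoImplicit false

open Module

namespace Pool.Agent.Helper70.GLn

private theorem gp26_inf {B : Type} [AddCommGroup B] [Finite B] {F : Type} [Field F] [Module F B] (T : ℕ)
    (S : Finset (Submodule F B)) : (∀ U ∈ S, U.toAddSubgroup.index ≤ T) →
    ∃ D : AddSubgroup B, (∀ U ∈ S, D ≤ U.toAddSubgroup) ∧ D.index ≤ T ^ S.card := by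
  classical
  induction S using Finset.induction_on with
  | empty =>
    intro _
    exact ⟨⊤, by simp, by simp⟩
  | insert U S hU ih =>
    intro h
    obtain ⟨D, hD, hi⟩ := ih fun V hV => h V (Finset.mem_insert_of_mem hV)
    refine ⟨D ⊓ U.toAddSubgroup, fun V hV => ?_, ?_⟩
    · rcases Finset.mem_insert.1 hV with rfl | hV
      · exact inf_le_right
      · exact inf_le_left.trans (hD V hV)
    · rw [Finset.card_insert_of_notMem hU, pow_succ]
      exact AddSubgroup.index_inf_le.trans (Nat.mul_le_mul hi (h U (Finset.mem_insert_self _ _)))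

theorem cover_gap (F : Type) [Field F] [Finite F] (h : ℕ) : ∃ c : ℝ, 0 < c ∧ c ≤ 1 ∧
    ∀ (B : Type) [AddCommGroup B] [Module F B] [Finite B] (S : Finset (Submodule F B)),
    S.card ≤ h → (∃ v : B, ∀ U ∈ S, v ∉ U) →
    c * Nat.card B ≤ Nat.card {v : B // ∀ U ∈ S, v ∉ U} := by
  classical
  induction h with
  | zero =>
    refine ⟨1, one_pos, le_refl _, fun B _ _ _ S hS _ => ?_⟩
    have h0 : S = ∅ := Finset.card_eq_zero.1 (Nat.le_zero.1 hS)
    subst h0
    rw [one_mul]
    have e : {v : B // ∀ U ∈ (∅ : Finset (Submodule F B)), v ∉ U} ≃ B :=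
      Equiv.subtypeUnivEquiv (by simp)
    rw [Nat.card_congr e]
  | succ h ih =>
    obtain ⟨c, hc, hc1, ih⟩ := ih
    obtain ⟨T, hT⟩ := exists_nat_ge (2 / c)
    have hT0 : (0 : ℝ) < T := lt_of_lt_of_le (by positivity) hT
    have hT1 : 1 ≤ T := by
      have : 0 < T := by exact_mod_cast hT0
      omega
    refine ⟨min (c / 2) (1 / (T : ℝ) ^ (h + 1)), lt_min (by positivity) (by positivity),
      (min_le_left _ _).trans (by linarith), fun B _ _ _ S hS hv => ?_⟩
    obtain ⟨v, hv⟩ := hv
    have hcardS : Nat.card {v : B // ∀ U ∈ S, v ∉ U} = Set.ncard {v : B | ∀ U ∈ S, v ∉ U} := rfl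
    rw [hcardS]
    by_cases hsm : ∀ U ∈ S, U.toAddSubgroup.index ≤ T
    · obtain ⟨D, hD, hi⟩ := gp26_inf T S hsm
      have h1 : Nat.card D ≤ Set.ncard {v : B | ∀ U ∈ S, v ∉ U} := by
        have h2 : ((fun w : B => v + w) '' (D : Set B)) ⊆ {v : B | ∀ U ∈ S, v ∉ U} := by
          rintro _ ⟨w, hw, rfl⟩ U hU hmem
          apply hv U hU
          have h3 : w ∈ U := hD U hU hw
          have h4 := U.sub_mem hmem h3
          simpa using h4
        have h5 := Set.ncard_le_ncard h2 (Set.toFinite _)
        rw [Set.ncard_image_of_injective _ (add_right_injective v)] at h5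
        exact h5
      have h6 : D.index * Nat.card D = Nat.card B := D.index_mul_card
      have h7 : Nat.card B ≤ T ^ (h + 1) * Nat.card D := by
        rw [← h6]
        exact Nat.mul_le_mul_right _ (hi.trans (Nat.pow_le_pow_right hT1 hS))
      have h8 : (Nat.card B : ℝ) ≤ (T : ℝ) ^ (h + 1) * Nat.card D := by exact_mod_cast h7
      have h9 : (Nat.card D : ℝ) ≤ Set.ncard {v : B | ∀ U ∈ S, v ∉ U} := by exact_mod_cast h1
      calc min (c / 2) (1 / (T : ℝ) ^ (h + 1)) * (Nat.card B : ℝ)
          ≤ 1 / (T : ℝ) ^ (h + 1) * ((T : ℝ) ^ (h + 1) * Nat.card D) :=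
            mul_le_mul (min_le_right _ _) h8 (by positivity) (by positivity)
        _ = Nat.card D := by field_simp
        _ ≤ _ := h9
    · push Not at hsm
      obtain ⟨U, hU, hUT⟩ := hsm
      have h1 := ih B (S.erase U) (by rw [Finset.card_erase_of_mem hU]; omega)
        ⟨v, fun V hV => hv V (Finset.mem_of_mem_erase hV)⟩
      have h2 : Nat.card {v : B // ∀ V ∈ S.erase U, v ∉ V} =
          Set.ncard {v : B | ∀ V ∈ S.erase U, v ∉ V} := rfl
      rw [h2] at h1
      have h3 : {v : B | ∀ V ∈ S.erase U, v ∉ V} ⊆ {v : B | ∀ V ∈ S, v ∉ V} ∪ (U : Set B) := by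
        intro w hw
        by_cases hwU : w ∈ U
        · exact Or.inr hwU
        · refine Or.inl fun V hV => ?_
          by_cases hVU : V = U
          · rw [hVU]; exact hwU
          · exact hw V (Finset.mem_erase.2 ⟨hVU, hV⟩)
      have h4 := (Set.ncard_le_ncard h3 (Set.toFinite _)).trans (Set.ncard_union_le _ _)
      have h5 : U.toAddSubgroup.index * Nat.card U.toAddSubgroup = Nat.card B :=
        U.toAddSubgroup.index_mul_card
      have h6 : (U : Set B).ncard = Nat.card U.toAddSubgroup := rfl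
      have h7 : T * Nat.card U.toAddSubgroup ≤ Nat.card B := by
        rw [← h5]
        exact Nat.mul_le_mul_right _ hUT.le
      have h8 : (T : ℝ) * (Nat.card U.toAddSubgroup : ℝ) ≤ Nat.card B := by exact_mod_cast h7
      have h9 : (Nat.card U.toAddSubgroup : ℝ) ≤ c / 2 * Nat.card B := by
        have h10 : (2 / c) * (Nat.card U.toAddSubgroup : ℝ) ≤ Nat.card B :=
          (mul_le_mul_of_nonneg_right hT (by positivity)).trans h8
        rw [div_mul_eq_mul_div, div_le_iff₀ hc] at h10
        linarith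
      rw [h6] at h4
      have h11 : (Set.ncard {v : B | ∀ V ∈ S.erase U, v ∉ V} : ℝ) ≤
          Set.ncard {v : B | ∀ V ∈ S, v ∉ V} + Nat.card U.toAddSubgroup := by exact_mod_cast h4
      calc min (c / 2) (1 / (T : ℝ) ^ (h + 1)) * (Nat.card B : ℝ) ≤ c / 2 * Nat.card B :=
            mul_le_mul_of_nonneg_right (min_le_left _ _) (by positivity)
        _ ≤ _ := by linarith

end Pool.Agent.Helper70.GLn
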