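import Pool.Agent.Helper70.GLu.PT2
import Pool.Agent.Helper70.GLw.GP
import Pool.Agent.Helper70.GLw.AW
import Pool.Agent.Helper70.GLw.CN
import Pool.Agent.Helper70.GLw.GH

/-!
# Project GW: the sum of the defects over a subgroup of the Levi subgroup which is scalar on `A`
-/

set_option autoImplicit false

open Module Pool.Agent.Helper13.Ded

namespace Pool.Agent.Helper70.GLn

lemma LHP.sum_nonneg {G : Type*} [Group G] [Finite G] {θ : G → ℝ} (h : LHP θ) :
    0 ≤ ∑ᶠ g, θ g := by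
  have h2 := h.pos ⊤ 1
  have h3 : (∑ᶠ k : (⊤ : Subgroup G), (θ k : ℂ) * (((1 : (⊤ : Subgroup G) →* ℂˣ) k : ℂˣ) : ℂ))
      = ((∑ᶠ g : G, θ g : ℝ) : ℂ) := by
    have := Fintype.ofFinite G
    have := Fintype.ofFinite (⊤ : Subgroup G)
    rw [finsum_eq_sum_of_fintype, finsum_eq_sum_of_fintype]
    push_cast
    refine Fintype.sum_bijective (fun k : (⊤ : Subgroup G) => (k : G))
      (Subgroup.topEquiv (G := G)).bijective _ _ fun k => ?_
    simp
  rw [h3, Complex.ofReal_re] at h2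
  exact h2

section

variable {F A B : Type} [Field F] [Finite F] [AddCommGroup A] [Module F A] [Finite A]
  [AddCommGroup B] [Module F B] [Finite B] {θ : SpecialLinearGroup F (A × B) → ℝ}

theorem sum_phi_nonneg (h : HP θ) (T : Subgroup (Lev F A B)) [Fintype T] {M : A →ₗ[F] B}
    (hM : M ≠ 0) : 0 ≤ ∑ l : T, phi θ M l := by
  classical
  have hmul : ∀ l l' : Lev F A B, cact (l * l') M = cact l (cact l' M) := fun l l' => rfl
  let St : Subgroup T :=
    { carrier := {l | cact (l : Lev F A B) M = M}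
      mul_mem' := by
        intro a b ha hb
        show cact ((a : Lev F A B) * (b : Lev F A B)) M = M
        rw [hmul, show cact (b : Lev F A B) M = M from hb, show cact (a : Lev F A B) M = M from ha]
      one_mem' := rfl
      inv_mem' := by
        intro a ha
        show cact (a : Lev F A B)⁻¹ M = M
        have h1 : cact ((a : Lev F A B)⁻¹ * (a : Lev F A B)) M =
            cact (a : Lev F A B)⁻¹ (cact (a : Lev F A B) M) := hmul _ _
        rw [inv_mul_cancel, show cact (a : Lev F A B) M = M from ha] at h1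
        rw [← h1]
        rfl }
  have h1 := (phi_lhp h (Γ := St) (T.subtype.comp St.subtype) hM (fun γ => γ.2)).sum_nonneg
  rw [finsum_eq_sum_of_fintype] at h1
  have h2 : ∑ l : T, phi θ M l = ∑ l : T, if l ∈ St then phi θ M l else 0 := by
    refine Finset.sum_congr rfl fun l _ => ?_
    by_cases hl : l ∈ St
    · rw [if_pos hl]
    · rw [if_neg hl, phi_eq_zero h (l : Lev F A B) M hl]
  rw [h2, ← Finset.sum_filter]
  refine le_of_le_of_eq h1 ?_
  rw [Finset.sum_subtype (Finset.univ.filter (fun l : T => l ∈ St)) (p := fun l => l ∈ St)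
    (fun l => by simp)]
  rfl

end

section count

variable {X : Type*} [Finite X]

private lemma card_split {p q r : X → Prop} (h : ∀ x, p x → q x ∨ r x) :
    Nat.card {x // p x} ≤ Nat.card {x // q x} + Nat.card {x // r x} := by
  classical
  have := Fintype.ofFinite X
  simp only [Nat.card_eq_fintype_card, Fintype.card_subtype]
  refine (Finset.card_le_card ?_).trans (Finset.card_union_le _ _)
  intro x hx
  rw [Finset.mem_filter] at hx
  rw [Finset.mem_union, Finset.mem_filter, Finset.mem_filter]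
  rcases h x hx.2 with h1 | h1
  · exact Or.inl ⟨Finset.mem_univ _, h1⟩
  · exact Or.inr ⟨Finset.mem_univ _, h1⟩

private lemma card_exists {ι : Type*} [Fintype ι] {p : ι → X → Prop} {m : ℝ}
    (h : ∀ i, (Nat.card {x // p i x} : ℝ) ≤ m) :
    (Nat.card {x // ∃ i, p i x} : ℝ) ≤ Fintype.card ι * m := by
  classical
  have := Fintype.ofFinite X
  have h1 : Nat.card {x // ∃ i, p i x} ≤ ∑ i, Nat.card {x // p i x} := by
    simp only [Nat.card_eq_fintype_card, Fintype.card_subtype]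
    refine (Finset.card_le_card ?_).trans Finset.card_biUnion_le
    intro x hx
    rw [Finset.mem_filter] at hx
    obtain ⟨i, hi⟩ := hx.2
    rw [Finset.mem_biUnion]
    exact ⟨i, Finset.mem_univ _, Finset.mem_filter.2 ⟨Finset.mem_univ _, hi⟩⟩
  have h2 : ((∑ i, Nat.card {x // p i x} : ℕ) : ℝ) ≤ ∑ _i : ι, m := by
    push_cast
    exact Finset.sum_le_sum fun i _ => h i
  rw [Finset.sum_const, Finset.card_univ, nsmul_eq_mul] at h2
  exact (Nat.cast_le.2 h1).trans h2

end count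

private lemma finrank_sup70 {F B ι : Type} [Field F] [AddCommGroup B] [Module F B] [Finite B]
    (s : Finset ι) (U : ι → Submodule F B) (K : ℕ) (hK : ∀ i, finrank F (U i) ≤ K) :
    finrank F (s.sup U : Submodule F B) ≤ s.card * K := by
  classical
  induction s using Finset.induction_on with
  | empty => simp
  | insert i s hi ih =>
    rw [Finset.sup_insert, Finset.card_insert_of_notMem hi]
    have h1 := Submodule.finrank_add_le_finrank_add_finrank (U i) (s.sup U)
    have h2 := hK i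
    rw [Nat.succ_mul]
    omega

theorem good_count (F : Type) [Field F] [Finite F] (h : ℕ) : ∃ c : ℝ, 0 < c ∧ c ≤ 1 ∧
    ∀ (K : ℕ) (κ : ℝ), 0 < κ → ∃ n1 : ℕ,
    ∀ (A B : Type) [AddCommGroup A] [Module F A] [Finite A] [AddCommGroup B] [Module F B]
    [Finite B] (θ : SpecialLinearGroup F (A × B) → ℝ), HP θ →
    (∀ z x : SpecialLinearGroup F (A × B), (∃ a : F, ∀ v, z v = a • v) → θ (z * x) = θ x) →
    ∀ (T : Subgroup (Lev F A B)) (a : Lev F A B → Fˣ), Nat.card T ≤ h →
    (∀ l ∈ T, ∀ v, l.1.1 v = (a l : F) • v) →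
    (∀ l ∈ T, finrank F (LinearMap.range ((l.1.2 : B →ₗ[F] B) -
      (a l : F) • LinearMap.id)) ≤ K) →
    n1 ≤ finrank F B →
    (∃ β : B, ∀ l ∈ T, l.1.2 β = (a l : F) • β → (a l : F) ^ finrank F (A × B) = 1) →
    ∀ M : A →ₗ[F] B, M ≠ 0 → c / 2 * Nat.card (SpecialLinearGroup F B) ≤
      Nat.card {g : SpecialLinearGroup F B // ∀ l ∈ T,
        -(κ * phi θ ((g : B →ₗ[F] B) ∘ₗ M) 1) ≤ phi θ ((g : B →ₗ[F] B) ∘ₗ M) l} := by
  classical
  obtain ⟨c, hc0, hc1, hgap⟩ := cover_gap F h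
  refine ⟨c, hc0, hc1, ?_⟩
  intro K κ hκ
  have hq : (1 : ℝ) < Nat.card F := by exact_mod_cast Finite.one_lt_card
  obtain ⟨n0, hQ⟩ := qk_eps F (h * Nat.card F) K hκ
  obtain ⟨J, hJ⟩ := pow_unbounded_of_one_lt (8 * h / c) hq
  obtain ⟨b1, hb1⟩ := pow_unbounded_of_one_lt (8 / c * (Nat.card F : ℝ) ^ (J + h * K) + 1) hq
  obtain ⟨b2, hb2⟩ := pow_unbounded_of_one_lt (4 / c) hq
  refine ⟨n0 + J + b1 + b2 + 2, ?_⟩
  intro A B _ _ _ _ _ _ θ hθ hz T a hT hs hr hB hβ M hM
  obtain ⟨β, hβ⟩ := hβ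
  have hfA : Module.Finite F A := Module.Finite.of_finite
  have hfB : Module.Finite F B := Module.Finite.of_finite
  have := Fintype.ofFinite T
  have hTc : Fintype.card T ≤ h := by rw [← Nat.card_eq_fintype_card]; exact hT
  have hN : (0 : ℝ) < Nat.card (SpecialLinearGroup F B) := by exact_mod_cast Nat.card_pos
  obtain ⟨w, hw⟩ : ∃ w, M w ≠ 0 := by
    by_contra hcon
    push Not at hcon
    exact hM (LinearMap.ext hcon)
  have hb : 2 ≤ finrank F B := by omega
  have hord : ∀ l ∈ T, orderOf l ≤ h := by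
    intro l hl
    have h1 : orderOf (⟨l, hl⟩ : T) ≤ Nat.card T := orderOf_le_card
    have h2 : orderOf (⟨l, hl⟩ : T) = orderOf l := Subgroup.orderOf_mk l hl
    rw [h2] at h1
    exact h1.trans hT
  -- the kernels of the bad elements
  obtain ⟨S, hS⟩ : ∃ S : Finset (Submodule F B), S = (Finset.univ.filter
    (fun l : T => (a l : F) ^ finrank F (A × B) ≠ 1)).image
    (fun l : T => LinearMap.ker (((l : Lev F A B).1.2 : B →ₗ[F] B) - (a l : F) • LinearMap.id)) :=
    ⟨_, rfl⟩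
  have hSc : S.card ≤ h := by
    rw [hS]
    exact Finset.card_image_le.trans ((Finset.card_filter_le _ _).trans hTc)
  have hβS : ∀ U ∈ S, β ∉ U := by
    intro U hU hβU
    rw [hS, Finset.mem_image] at hU
    obtain ⟨l, hl, rfl⟩ := hU
    rw [Finset.mem_filter] at hl
    rw [LinearMap.mem_ker] at hβU
    exact hl.2 (hβ l l.2 (sub_eq_zero.1 hβU))
  have g1 := hgap B S hSc ⟨β, hβS⟩
  have g2 := count_vec hb hw {v : B | ∀ U ∈ S, v ∉ U}
  have hqb : (0 : ℝ) < (Nat.card F : ℝ) ^ finrank F B := by positivity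
  have hcardB : (Nat.card B : ℝ) = (Nat.card F : ℝ) ^ finrank F B := by
    rw [Module.natCard_eq_pow_finrank (K := F) (V := B)]
    push_cast
    rfl
  have hE1 : 3 / 4 * c * Nat.card (SpecialLinearGroup F B) ≤
      Nat.card {g : SpecialLinearGroup F B // g (M w) ∈ {v : B | ∀ U ∈ S, v ∉ U}} := by
    have e1 : c * (Nat.card F : ℝ) ^ finrank F B ≤ Nat.card {v : B | ∀ U ∈ S, v ∉ U} := by
      rw [← hcardB]
      exact g1
    have e2 : 4 ≤ c * (Nat.card F : ℝ) ^ finrank F B := by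
      have e3 : (Nat.card F : ℝ) ^ b2 ≤ (Nat.card F : ℝ) ^ finrank F B :=
        pow_le_pow_right₀ hq.le (by omega)
      have e4 : 4 / c ≤ (Nat.card F : ℝ) ^ finrank F B := hb2.le.trans e3
      rw [div_le_iff₀ hc0] at e4
      linarith
    refine le_of_mul_le_mul_right ?_ hqb
    refine le_trans ?_ g2
    have e5 : 3 / 4 * c * (Nat.card F : ℝ) ^ finrank F B ≤
        (Nat.card {v : B | ∀ U ∈ S, v ∉ U} : ℝ) - 1 := by linarith
    calc 3 / 4 * c * Nat.card (SpecialLinearGroup F B) * (Nat.card F : ℝ) ^ finrank F B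
        = (3 / 4 * c * (Nat.card F : ℝ) ^ finrank F B) * Nat.card (SpecialLinearGroup F B) := by
          ring
      _ ≤ _ := mul_le_mul_of_nonneg_right e5 hN.le
  -- the span of the ranges
  obtain ⟨D, hD⟩ : ∃ D : Submodule F B, D = (Finset.univ : Finset T).sup (fun l : T =>
    LinearMap.range (((l : Lev F A B).1.2 : B →ₗ[F] B) - (a l : F) • LinearMap.id)) := ⟨_, rfl⟩
  have hDr : finrank F D ≤ h * K := by
    rw [hD]
    refine (finrank_sup70 (Finset.univ : Finset T) (fun l : T =>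
      LinearMap.range (((l : Lev F A B).1.2 : B →ₗ[F] B) - (a l : F) • LinearMap.id)) K
      (fun l : T => hr l l.2)).trans ?_
    rw [Finset.card_univ]
    exact Nat.mul_le_mul_right _ hTc
  have hDl : ∀ l : T, LinearMap.range (((l : Lev F A B).1.2 : B →ₗ[F] B) -
      (a l : F) • LinearMap.id) ≤ D := by
    intro l
    rw [hD]
    exact Finset.le_sup (f := fun l : T =>
      LinearMap.range (((l : Lev F A B).1.2 : B →ₗ[F] B) - (a l : F) • LinearMap.id))
      (Finset.mem_univ l)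
  -- elements stabilising a map
  have hfix : ∀ l ∈ T, ∀ M' : A →ₗ[F] B, cact l M' = M' →
      ∀ v, l.1.2 (M' v) = (a l : F) • M' v := by
    intro l hl M' hM' v
    have h1 : cact l M' ((a l : F) • v) = M' ((a l : F) • v) := by rw [hM']
    have h2 : cact l M' ((a l : F) • v) = l.1.2 (M' (l.1.1.symm ((a l : F) • v))) := rfl
    have h3 : l.1.1.symm ((a l : F) • v) = v := by
      rw [LinearEquiv.symm_apply_eq, hs l hl]
    rw [h2, h3, map_smul] at h1
    exact h1
  have hgM : ∀ g : SpecialLinearGroup F B, (g : B →ₗ[F] B) ∘ₗ M ≠ 0 := by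
    intro g h0
    apply hw
    apply sl_injective g
    have h1 := LinearMap.congr_fun h0 w
    show (g : B ≃ₗ[F] B) (M w) = (g : B ≃ₗ[F] B) 0
    rw [map_zero]
    exact h1
  have hgr : ∀ g : SpecialLinearGroup F B,
      finrank F (LinearMap.range ((g : B →ₗ[F] B) ∘ₗ M)) = finrank F (LinearMap.range M) := by
    intro g
    rw [LinearMap.range_comp]
    exact LinearEquiv.finrank_map_eq (g : B ≃ₗ[F] B) (LinearMap.range M)
  -- the exceptional set
  suffices hE2 : ∃ r : SpecialLinearGroup F B → Prop,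
      (Nat.card {g // r g} : ℝ) ≤ c / 8 * Nat.card (SpecialLinearGroup F B) ∧
      ∀ g : SpecialLinearGroup F B, ¬ r g → (∀ U ∈ S, g (M w) ∉ U) → ∀ l ∈ T,
        -(κ * phi θ ((g : B →ₗ[F] B) ∘ₗ M) 1) ≤ phi θ ((g : B →ₗ[F] B) ∘ₗ M) l by
    obtain ⟨r, hr1, hr2⟩ := hE2
    have h1 := card_split (X := SpecialLinearGroup F B)
      (p := fun g => g (M w) ∈ {v : B | ∀ U ∈ S, v ∉ U})
      (q := fun g => ∀ l ∈ T,
        -(κ * phi θ ((g : B →ₗ[F] B) ∘ₗ M) 1) ≤ phi θ ((g : B →ₗ[F] B) ∘ₗ M) l) (r := r)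
      (fun g hg => by
        by_cases hrg : r g
        · exact Or.inr hrg
        · exact Or.inl (hr2 g hrg hg))
    have h2 : (Nat.card {g : SpecialLinearGroup F B // g (M w) ∈ {v : B | ∀ U ∈ S, v ∉ U}} : ℝ) ≤
        Nat.card {g : SpecialLinearGroup F B // ∀ l ∈ T,
        -(κ * phi θ ((g : B →ₗ[F] B) ∘ₗ M) 1) ≤ phi θ ((g : B →ₗ[F] B) ∘ₗ M) l} +
        Nat.card {g // r g} := by exact_mod_cast h1
    have h3 : 0 < c * Nat.card (SpecialLinearGroup F B) := mul_pos hc0 hN
    linarith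
  -- the common part of the two cases
  have hcommon : ∀ g : SpecialLinearGroup F B, (∀ U ∈ S, g (M w) ∉ U) →
      (∀ l : T, (∃ v, (l : Lev F A B).1.2 v ≠ (a l : F) • v) →
        cact (l : Lev F A B) ((g : B →ₗ[F] B) ∘ₗ M) = (g : B →ₗ[F] B) ∘ₗ M →
        (a l : F) ^ finrank F (A × B) = 1 →
        -(κ * phi θ ((g : B →ₗ[F] B) ∘ₗ M) 1) ≤ phi θ ((g : B →ₗ[F] B) ∘ₗ M) l) →
      ∀ l ∈ T, -(κ * phi θ ((g : B →ₗ[F] B) ∘ₗ M) 1) ≤ phi θ ((g : B →ₗ[F] B) ∘ₗ M) l := by
    intro g hg hns l hl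
    have hpos : 0 ≤ phi θ ((g : B →ₗ[F] B) ∘ₗ M) 1 := phi_nonneg hθ (hgM g)
    have hκp : 0 ≤ κ * phi θ ((g : B →ₗ[F] B) ∘ₗ M) 1 := mul_nonneg hκ.le hpos
    by_cases hf : cact l ((g : B →ₗ[F] B) ∘ₗ M) = (g : B →ₗ[F] B) ∘ₗ M
    · by_cases ha : (a l : F) ^ finrank F (A × B) = 1
      · by_cases hn : ∃ v, l.1.2 v ≠ (a l : F) • v
        · exact hns ⟨l, hl⟩ hn hf ha
        · push Not at hn
          rw [phi_scal hz l (a l : F) (hs l hl) hn]
          linarith
      · exfalso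
        refine hg (LinearMap.ker ((l.1.2 : B →ₗ[F] B) - (a l : F) • LinearMap.id)) ?_ ?_
        · rw [hS, Finset.mem_image]
          exact ⟨⟨l, hl⟩, Finset.mem_filter.2 ⟨Finset.mem_univ _, ha⟩, rfl⟩
        · rw [LinearMap.mem_ker]
          exact sub_eq_zero.2 (hfix l hl _ hf w)
    · rw [phi_eq_zero hθ l _ hf]
      linarith
  by_cases hJr : finrank F (LinearMap.range M) ≤ J
  · refine ⟨fun g => LinearMap.range ((g : B →ₗ[F] B) ∘ₗ M) ⊓ D ≠ ⊥, ?_, ?_⟩
    · have h1 := count_meet hb M D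
      have h2 : (0 : ℝ) < (Nat.card F : ℝ) ^ finrank F B - 1 := by
        have : (1 : ℝ) < (Nat.card F : ℝ) ^ finrank F B := one_lt_pow₀ hq (by omega)
        linarith
      refine le_of_mul_le_mul_right (h1.trans ?_) h2
      have h3 : (Nat.card F : ℝ) ^ (finrank F (LinearMap.range M) + finrank F D) ≤
          (Nat.card F : ℝ) ^ (J + h * K) := pow_le_pow_right₀ hq.le (by omega)
      have h4 : (Nat.card F : ℝ) ^ b1 ≤ (Nat.card F : ℝ) ^ finrank F B :=
        pow_le_pow_right₀ hq.le (by omega)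
      have h5 : (Nat.card F : ℝ) ^ (J + h * K) ≤ c / 8 * ((Nat.card F : ℝ) ^ finrank F B - 1) := by
        have h6 : 8 / c * (Nat.card F : ℝ) ^ (J + h * K) ≤ (Nat.card F : ℝ) ^ finrank F B - 1 := by
          linarith
        have h7 := mul_le_mul_of_nonneg_left h6 (show (0 : ℝ) ≤ c / 8 by positivity)
        have h8 : c / 8 * (8 / c * (Nat.card F : ℝ) ^ (J + h * K)) =
            (Nat.card F : ℝ) ^ (J + h * K) := by
          field_simp
        linarith
      calc _ ≤ (c / 8 * ((Nat.card F : ℝ) ^ finrank F B - 1)) *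
            Nat.card (SpecialLinearGroup F B) := mul_le_mul_of_nonneg_right (h3.trans h5) hN.le
        _ = _ := by ring
    · intro g hg hgS
      refine hcommon g hgS ?_
      intro l hn hf ha
      have hmeet : LinearMap.range ((g : B →ₗ[F] B) ∘ₗ M) ⊓ D = ⊥ := not_not.1 hg
      refine good_phi hθ hz hQ (l : Lev F A B) (a l) (hs l l.2) ha (hord l l.2) (hr l l.2)
        (hgM g) hf ?_ ?_
      · exact le_bot_iff.1 ((inf_le_inf_left _ (hDl l)).trans hmeet.le)
      · rw [hgr g]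
        omega
  · refine ⟨fun g => ∃ l : {l : T // ∃ v, (l : Lev F A B).1.2 v ≠ (a l : F) • v},
      LinearMap.range ((g : B →ₗ[F] B) ∘ₗ M) ≤
        LinearMap.ker (((l.1 : Lev F A B).1.2 : B →ₗ[F] B) - (a l.1 : F) • LinearMap.id), ?_, ?_⟩
    · have h1 : ∀ l : {l : T // ∃ v, (l : Lev F A B).1.2 v ≠ (a l : F) • v},
          (Nat.card {g : SpecialLinearGroup F B // LinearMap.range ((g : B →ₗ[F] B) ∘ₗ M) ≤
          LinearMap.ker (((l.1 : Lev F A B).1.2 : B →ₗ[F] B) -
            (a l.1 : F) • LinearMap.id)} : ℝ) ≤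
          1 / (Nat.card F : ℝ) ^ J * Nat.card (SpecialLinearGroup F B) := by
        rintro ⟨l, v, hv⟩
        have hZ : LinearMap.ker (((l : Lev F A B).1.2 : B →ₗ[F] B) -
            (a l : F) • LinearMap.id) ≠ ⊤ := by
          intro h0
          have h2 : v ∈ LinearMap.ker (((l : Lev F A B).1.2 : B →ₗ[F] B) -
            (a l : F) • LinearMap.id) := by rw [h0]; trivial
          rw [LinearMap.mem_ker] at h2
          exact hv (sub_eq_zero.1 h2)
        have h2 := count_in hb M hM _ hZ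
        have h3 : (Nat.card F : ℝ) ^ J ≤ (Nat.card F : ℝ) ^ finrank F (LinearMap.range M) :=
          pow_le_pow_right₀ hq.le (by omega)
        have hqJ : (0 : ℝ) < (Nat.card F : ℝ) ^ J := by positivity
        rw [div_mul_eq_mul_div, one_mul, le_div_iff₀ hqJ]
        exact (mul_le_mul_of_nonneg_left h3 (Nat.cast_nonneg _)).trans h2
      have h2 := card_exists h1
      refine h2.trans ?_
      have h3 : (Fintype.card {l : T // ∃ v, (l : Lev F A B).1.2 v ≠ (a l : F) • v} : ℝ) ≤ h := by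
        exact_mod_cast (Fintype.card_subtype_le _).trans hTc
      have hqJ : (0 : ℝ) < (Nat.card F : ℝ) ^ J := by positivity
      have h4 : (h : ℝ) * (1 / (Nat.card F : ℝ) ^ J) ≤ c / 8 := by
        rw [mul_one_div, div_le_iff₀ hqJ]
        have h5 := hJ.le
        rw [div_le_iff₀ hc0] at h5
        linarith
      calc _ ≤ (h : ℝ) * (1 / (Nat.card F : ℝ) ^ J * Nat.card (SpecialLinearGroup F B)) :=
            mul_le_mul_of_nonneg_right h3 (by positivity)
        _ = (h : ℝ) * (1 / (Nat.card F : ℝ) ^ J) * Nat.card (SpecialLinearGroup F B) := by ring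
        _ ≤ _ := mul_le_mul_of_nonneg_right h4 hN.le
    · intro g hg hgS
      refine hcommon g hgS ?_
      intro l hn hf _
      exfalso
      apply hg
      refine ⟨⟨l, hn⟩, ?_⟩
      rintro _ ⟨v, rfl⟩
      rw [LinearMap.mem_ker]
      exact sub_eq_zero.2 (hfix l l.2 _ hf v)

theorem lev_sum (F : Type) [Field F] [Finite F] (h : ℕ) : ∃ c : ℝ, 0 < c ∧ c ≤ 1 ∧
    ∀ K : ℕ, ∃ n1 : ℕ,
    ∀ (A B : Type) [AddCommGroup A] [Module F A] [Finite A] [AddCommGroup B] [Module F B]
    [Finite B] (θ : SpecialLinearGroup F (A × B) → ℝ), HP θ →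
    (∀ z x : SpecialLinearGroup F (A × B), (∃ a : F, ∀ v, z v = a • v) → θ (z * x) = θ x) →
    ∀ (T : Subgroup (Lev F A B)) (a : Lev F A B → Fˣ), Nat.card T ≤ h →
    (∀ l ∈ T, ∀ v, l.1.1 v = (a l : F) • v) →
    (∀ l ∈ T, finrank F (LinearMap.range ((l.1.2 : B →ₗ[F] B) -
      (a l : F) • LinearMap.id)) ≤ K) → (Nat.card F - 1) ∣ finrank F A →
    n1 ≤ finrank F A → n1 ≤ finrank F B →
    (∃ β : B, ∀ l ∈ T, l.1.2 β = (a l : F) • β → (a l : F) ^ finrank F (A × B) = 1) →
    ∑ᶠ l : T, (θ 1 - θ (dg l)) ≤ ((Nat.card T : ℝ) - c) * NU θ := by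
  classical
  obtain ⟨c, hc0, hc1, hcount⟩ := good_count F h
  refine ⟨c / 8, by positivity, by linarith, ?_⟩
  intro K
  have hh : (0 : ℝ) ≤ h := Nat.cast_nonneg h
  obtain ⟨n1, hn1⟩ := hcount K (1 / (2 * (h + 1))) (by positivity)
  obtain ⟨R, hR⟩ := ss2 F (ε := c / (8 * (h + 1))) (by positivity) h
  refine ⟨n1 + R, ?_⟩
  intro A B _ _ _ _ _ _ θ hθ hz T a hT hs hr hdiv hA hB hβ
  have hfA : Module.Finite F A := Module.Finite.of_finite
  have hfin : Finite (A →ₗ[F] B) := finite_hom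
  have := Fintype.ofFinite (A →ₗ[F] B)
  have := Fintype.ofFinite T
  have hNU : 0 ≤ NU θ := NU_nonneg hθ
  have hTc : (Fintype.card T : ℝ) ≤ h := by
    rw [← Nat.card_eq_fintype_card]
    exact_mod_cast hT
  have hcnt := hn1 A B θ hθ hz T a hT hs hr (by omega) hβ
  have hlow := avg_lower hθ (fun M => ∀ l ∈ T,
    -(1 / (2 * ((h : ℝ) + 1)) * phi θ M 1) ≤ phi θ M l) (c / 2) hcnt
  have hdet : ∀ l ∈ T, LinearEquiv.det l.1.1 = 1 := by
    intro l hl
    have h1 : (l.1.1 : A →ₗ[F] A) = (a l : F) • LinearMap.id := LinearMap.ext fun v => hs l hl v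
    apply Units.ext
    rw [LinearEquiv.coe_det, h1, LinearMap.det_smul, LinearMap.det_id, mul_one]
    obtain ⟨k, hk⟩ := hdiv
    rw [hk, pow_mul]
    have h2 : (a l) ^ (Nat.card F - 1) = 1 := by
      rw [← Nat.card_units]
      exact pow_card_eq_one'
    have h3 : (a l : F) ^ (Nat.card F - 1) = 1 := by
      rw [← Units.val_pow_eq_pow_val, h2, Units.val_one]
    rw [h3, one_pow, Units.val_one]
  have hord : ∀ l ∈ T, orderOf l ≤ h := by
    intro l hl
    have h1 : orderOf (⟨l, hl⟩ : T) ≤ Nat.card T := orderOf_le_card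
    have h2 : orderOf (⟨l, hl⟩ : T) = orderOf l := Subgroup.orderOf_mk l hl
    rw [h2] at h1
    exact h1.trans hT
  have hPsi : ∀ l : T, Psi θ 1 - Psi θ l ≤ c / (8 * (h + 1)) * NU θ := fun l =>
    hR A B θ hθ l (hord l l.2) (hdet l l.2) (by omega) (by omega)
  -- the contribution of one map
  have key : ∀ M : A →ₗ[F] B, ∑ l : T, (phi θ M 1 - phi θ M l) ≤
      (if M = 0 then (Fintype.card T : ℝ) * (c / (8 * (h + 1)) * NU θ) else 0) +
      (Fintype.card T : ℝ) * (if M = 0 then 0 else phi θ M 1) -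
      1 / 2 * (if M ≠ 0 ∧ ∀ l ∈ T, -(1 / (2 * ((h : ℝ) + 1)) * phi θ M 1) ≤ phi θ M l
        then phi θ M 1 else 0) := by
    intro M
    by_cases hM : M = 0
    · subst hM
      rw [if_pos rfl, if_pos rfl, if_neg (fun h1 => h1.1 rfl), mul_zero, mul_zero, sub_zero,
        add_zero]
      calc _ ≤ ∑ _l : T, c / (8 * (h + 1)) * NU θ := Finset.sum_le_sum fun l _ => by
            rw [phi_zero, phi_zero]
            exact hPsi l
        _ = _ := by rw [Finset.sum_const, Finset.card_univ, nsmul_eq_mul]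
    · have hpos : 0 ≤ phi θ M 1 := phi_nonneg hθ hM
      rw [if_neg hM, if_neg hM, Finset.sum_sub_distrib, Finset.sum_const, Finset.card_univ,
        nsmul_eq_mul, zero_add]
      by_cases hgood : ∀ l ∈ T, -(1 / (2 * ((h : ℝ) + 1)) * phi θ M 1) ≤ phi θ M l
      · rw [if_pos ⟨hM, hgood⟩]
        have h1 : (phi θ M (1 : T) + 1 / (2 * ((h : ℝ) + 1)) * phi θ M 1) ≤
            ∑ l : T, (phi θ M l + 1 / (2 * ((h : ℝ) + 1)) * phi θ M 1) :=
          Finset.single_le_sum (f := fun l : T => phi θ M l +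
            1 / (2 * ((h : ℝ) + 1)) * phi θ M 1)
            (fun l _ => by linarith [hgood l l.2]) (Finset.mem_univ 1)
        rw [Finset.sum_add_distrib, Finset.sum_const, Finset.card_univ, nsmul_eq_mul,
          Subgroup.coe_one] at h1
        have h2 : (Fintype.card T : ℝ) * (1 / (2 * ((h : ℝ) + 1)) * phi θ M 1) ≤
            1 / 2 * phi θ M 1 := by
          have h3 : (Fintype.card T : ℝ) * (1 / (2 * ((h : ℝ) + 1))) ≤ 1 / 2 := by
            rw [mul_one_div, div_le_iff₀ (by positivity)]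
            linarith
          rw [← mul_assoc]
          exact mul_le_mul_of_nonneg_right h3 hpos
        have h4 : 0 ≤ 1 / (2 * ((h : ℝ) + 1)) * phi θ M 1 := mul_nonneg (by positivity) hpos
        linarith
      · rw [if_neg (fun h1 => hgood h1.2), mul_zero, sub_zero]
        have h1 := sum_phi_nonneg hθ T hM
        linarith
  have hsum := Finset.sum_le_sum (fun M (_ : M ∈ (Finset.univ : Finset (A →ₗ[F] B))) => key M)
  rw [Finset.sum_sub_distrib, Finset.sum_add_distrib, ← Finset.mul_sum, ← Finset.mul_sum,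
    ← nu_eq hθ, Finset.sum_comm, Finset.sum_ite_eq' Finset.univ (0 : A →ₗ[F] B),
    if_pos (Finset.mem_univ _)] at hsum
  have h1 : ∑ l : T, ∑ M : A →ₗ[F] B, (phi θ M 1 - phi θ M l) = ∑ l : T, (θ 1 - θ (dg l)) := by
    refine Finset.sum_congr rfl fun l _ => ?_
    rw [Finset.sum_sub_distrib, ← sum_phi, ← sum_phi, map_one]
  rw [h1] at hsum
  rw [finsum_eq_sum_of_fintype, Nat.card_eq_fintype_card]
  have h2 : (Fintype.card T : ℝ) * (c / (8 * (h + 1)) * NU θ) ≤ c / 8 * NU θ := by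
    rw [← mul_assoc]
    refine mul_le_mul_of_nonneg_right ?_ hNU
    have h3 : (Fintype.card T : ℝ) * (c / (8 * (h + 1))) ≤ (h + 1) * (c / (8 * (h + 1))) :=
      mul_le_mul_of_nonneg_right (by linarith) (by positivity)
    refine h3.trans (le_of_eq ?_)
    field_simp
  have h3 : 1 / 2 * (c / 2 * NU θ) ≤ 1 / 2 * (∑ M : A →ₗ[F] B, if M ≠ 0 ∧ ∀ l ∈ T,
      -(1 / (2 * ((h : ℝ) + 1)) * phi θ M 1) ≤ phi θ M l then phi θ M 1 else 0) :=
    mul_le_mul_of_nonneg_left hlow (by norm_num)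
  linarith

end Pool.Agent.Helper70.GLn
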