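import Mathlib

/-!
# GW-NF: simultaneous decomposition for several maps close to scalars (100-180 lines)

PROOF. This is `al_small60` of `Pool/Agent/Helper70/GLn/AL.lean` (copy and adapt it; it is private) for several maps at the same time. Let `I = ⨆ i, range (x i - a i)`, `finrank I ≤ |ι| * K`, and
`N = ⨅ i, ker (x i - a i)`, `finrank N ≥ finrank V - |ι| * K` (the map `V → ∀ i, range (x i - a i)` has kernel `N`). Choose a complement `N₀` of `N ⊓ I` in `N`, `finrank N₀ ≥ finrank V - 2 |ι| K ≥ n1`, and a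
subspace `A ≤ N₀` of dimension `n1`; `A ⊓ I = ⊥`, so there is a complement `B` of `A` in `V` with `I ≤ B` (`Disjoint.exists_isCompl`). `x i` is `a i` on `A`, and `x i` maps `B` to `B` because
`x i b = a i b + (x i - a i) b`. `e = (Submodule.prodEquivOfIsCompl A B _).symm`, `z i` the restriction of `x i` to `B` (`LinearEquiv.ofInjectiveEndo`).
-/

set_option autoImplicit false

open Module

namespace Pool.Agent.Helper70.GLn

section

variable {F V : Type} [Field F] [AddCommGroup V] [Module F V]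

private lemma nf_sub50 [Finite V] (W : Submodule F V) (n : ℕ) (hn : n ≤ finrank F W) :
    ∃ A : Submodule F V, A ≤ W ∧ finrank F A = n := by
  obtain ⟨f, hf⟩ := exists_linearIndependent_of_le_finrank hn
  refine ⟨(Submodule.span F (Set.range f)).map W.subtype, ?_, ?_⟩
  · rw [Submodule.map_le_iff_le_comap]
    intro v _
    exact v.2
  · rw [Submodule.finrank_map_subtype_eq, finrank_span_eq_card hf, Fintype.card_fin]

private lemma nf_iSup50 [Finite V] {ι : Type} (D : ι → Submodule F V) (K : ℕ)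
    (hK : ∀ i, finrank F (D i) ≤ K) (s : Finset ι) :
    finrank F (⨆ i ∈ s, D i : Submodule F V) ≤ s.card * K := by
  classical
  induction s using Finset.induction_on with
  | empty => simp
  | insert a s ha ih =>
    rw [Finset.iSup_insert, Finset.card_insert_of_notMem ha]
    have h1 := Submodule.finrank_add_le_finrank_add_finrank (D a) (⨆ i ∈ s, D i)
    have h2 := hK a
    rw [Nat.succ_mul]
    omega

private lemma nf_iInf50 [Finite V] {ι : Type} (D : ι → Submodule F V) (K : ℕ)
    (hK : ∀ i, finrank F V ≤ finrank F (D i) + K) (s : Finset ι) :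
    finrank F V ≤ finrank F (⨅ i ∈ s, D i : Submodule F V) + s.card * K := by
  classical
  induction s using Finset.induction_on with
  | empty =>
    have h1 : (⨅ i ∈ (∅ : Finset ι), D i : Submodule F V) = ⊤ := by simp
    rw [h1, finrank_top]
    exact Nat.le_add_right _ _
  | insert a s ha ih =>
    rw [Finset.iInf_insert, Finset.card_insert_of_notMem ha]
    have h1 := Submodule.finrank_sup_add_finrank_inf_eq (D a) (⨅ i ∈ s, D i)
    have h2 := hK a
    have h3 := Submodule.finrank_le (D a ⊔ ⨅ i ∈ s, D i)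
    rw [Nat.succ_mul]
    omega

end

theorem near_family (F V ι : Type) [Field F] [Finite F] [AddCommGroup V] [Module F V] [Finite V]
    [Finite ι] (x : ι → (V ≃ₗ[F] V)) (a : ι → Fˣ) (K n1 : ℕ)
    (hV : n1 + n1 + 2 * (Nat.card ι * K) + 1 ≤ finrank F V)
    (hK : ∀ i, finrank F (LinearMap.range ((x i : V →ₗ[F] V) - (a i : F) • LinearMap.id)) ≤ K) :
    ∃ (A B : Type) (_ : AddCommGroup A) (_ : Module F A) (_ : Finite A) (_ : AddCommGroup B)
      (_ : Module F B) (_ : Finite B) (e : V ≃ₗ[F] A × B) (z : ι → (B ≃ₗ[F] B)),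
      finrank F A = n1 ∧ n1 ≤ finrank F B ∧
      (∀ i, finrank F (LinearMap.range ((z i : B →ₗ[F] B) - (a i : F) • LinearMap.id)) ≤ K) ∧
      ∀ i v, e (x i v) = ((a i : F) • (e v).1, z i (e v).2) := by
  classical
  haveI : Fintype ι := Fintype.ofFinite ι
  have hcard : (Finset.univ : Finset ι).card = Nat.card ι := by
    rw [Nat.card_eq_fintype_card, Finset.card_univ]
  obtain ⟨D, hD⟩ : ∃ D : ι → (V →ₗ[F] V), D = fun i => (x i : V →ₗ[F] V) -
    (a i : F) • LinearMap.id := ⟨_, rfl⟩
  have hDv : ∀ i v, D i v = x i v - (a i : F) • v := by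
    intro i v
    rw [hD]
    rfl
  have hDK : ∀ i, finrank F (LinearMap.range (D i)) ≤ K := by
    intro i
    rw [hD]
    exact hK i
  obtain ⟨I, hI⟩ : ∃ I : Submodule F V, I = ⨆ i ∈ (Finset.univ : Finset ι), LinearMap.range (D i) :=
    ⟨_, rfl⟩
  obtain ⟨N, hN⟩ : ∃ N : Submodule F V, N = ⨅ i ∈ (Finset.univ : Finset ι), LinearMap.ker (D i) :=
    ⟨_, rfl⟩
  have hfI : finrank F I ≤ Nat.card ι * K := by
    rw [hI, ← hcard]
    exact nf_iSup50 (fun i => LinearMap.range (D i)) K hDK Finset.univ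
  have hfN : finrank F V ≤ finrank F N + Nat.card ι * K := by
    rw [hN, ← hcard]
    refine nf_iInf50 (fun i => LinearMap.ker (D i)) K (fun i => ?_) Finset.univ
    have hrn := LinearMap.finrank_range_add_finrank_ker (D i)
    have := hDK i
    omega
  have hIx : ∀ i v, x i v - (a i : F) • v ∈ I := by
    intro i v
    rw [hI, ← hDv]
    exact Submodule.mem_iSup_of_mem i (Submodule.mem_iSup_of_mem (Finset.mem_univ i) ⟨v, rfl⟩)
  have hNx : ∀ i, ∀ v ∈ N, x i v = (a i : F) • v := by
    intro i v hv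
    rw [hN, Submodule.mem_iInf] at hv
    have h1 := hv i
    rw [Submodule.mem_iInf] at h1
    have h2 := h1 (Finset.mem_univ i)
    rw [LinearMap.mem_ker, hDv] at h2
    exact sub_eq_zero.1 h2
  obtain ⟨C, hC⟩ := Submodule.exists_isCompl (N ⊓ I)
  obtain ⟨N₀, hN₀⟩ : ∃ N₀, N₀ = C ⊓ N := ⟨_, rfl⟩
  have hdis : N₀ ⊓ I = ⊥ := by
    rw [hN₀, inf_assoc, inf_comm]
    exact hC.disjoint.eq_bot
  have hdim : finrank F N ≤ finrank F N₀ + finrank F I := by
    have h1 : N ≤ N₀ ⊔ (N ⊓ I) := by
      rw [hN₀, sup_comm, inf_comm C N]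
      have h2 : (N ⊓ I) ⊔ (N ⊓ C) = N := by
        rw [sup_comm, inf_sup_assoc_of_le C (inf_le_left : N ⊓ I ≤ N), sup_comm,
          hC.sup_eq_top, inf_top_eq]
      rw [h2]
    have h3 := Submodule.finrank_mono h1
    have h4 := Submodule.finrank_add_le_finrank_add_finrank N₀ (N ⊓ I)
    have h5 := Submodule.finrank_mono (inf_le_right : N ⊓ I ≤ I)
    omega
  obtain ⟨A, hA1, hA2⟩ := nf_sub50 N₀ n1 (by omega)
  have hAI : Disjoint I A := by
    rw [disjoint_iff]
    apply le_bot_iff.1
    rw [← hdis, inf_comm]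
    exact inf_le_inf_right _ hA1
  obtain ⟨B, hIB, hBA⟩ := hAI.exists_isCompl
  have hAB : IsCompl A B := hBA.symm
  have hAx : ∀ i, ∀ v ∈ A, x i v = (a i : F) • v := fun i v hv => hNx i v (by
    have := hA1 hv
    rw [hN₀] at this
    exact this.2)
  have hBx : ∀ i, ∀ v ∈ B, x i v ∈ B := by
    intro i v hv
    have h1 := B.add_mem (hIB (hIx i v)) (B.smul_mem (a i : F) hv)
    rwa [sub_add_cancel] at h1
  have hz0 : ∀ i, ∃ z : B ≃ₗ[F] B, ∀ b : B, (z b : V) = x i b := by
    intro i
    let zl : B →ₗ[F] B := (x i : V →ₗ[F] V).restrict (hBx i)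
    have hzl : ∀ b : B, (zl b : V) = x i b := fun b => rfl
    have hinj : Function.Injective zl := by
      intro a b hab
      apply Subtype.ext
      apply (x i).injective
      rw [← hzl, ← hzl, hab]
    exact ⟨LinearEquiv.ofInjectiveEndo zl hinj, fun b => rfl⟩
  choose z hz using hz0
  let e : V ≃ₗ[F] A × B := (Submodule.prodEquivOfIsCompl A B hAB).symm
  have he : ∀ (a : A) (b : B), e ((a : V) + b) = (a, b) := by
    intro a b
    rw [LinearEquiv.symm_apply_eq, Submodule.coe_prodEquivOfIsCompl']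
  have hev : ∀ v, ((e v).1 : V) + (e v).2 = v := by
    intro v
    have h1 := (Submodule.prodEquivOfIsCompl A B hAB).apply_symm_apply v
    rwa [Submodule.coe_prodEquivOfIsCompl'] at h1
  refine ⟨A, B, inferInstance, inferInstance, inferInstance, inferInstance, inferInstance,
    inferInstance, e, z, hA2, ?_, ?_, ?_⟩
  · have h1 := Submodule.finrank_add_eq_of_isCompl hAB
    omega
  · intro i
    refine le_trans ?_ (hDK i)
    rw [← Submodule.finrank_map_subtype_eq B]
    refine Submodule.finrank_mono ?_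
    rintro _ ⟨_, ⟨b, rfl⟩, rfl⟩
    refine ⟨b, ?_⟩
    rw [hDv, ← hz]
    rfl
  · intro i v
    rw [← he]
    congr 1
    conv_lhs => rw [← hev v]
    rw [map_add, hAx i _ (e v).1.2, hz]
    rfl

end Pool.Agent.Helper70.GLn
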