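import Mathlib

/-!
# GW-SC: maps close to scalars form a subgroup at a suitable scale (60-120 lines)

PROOF. `near_mul`: `x y - a b = x (y - b) + b (x - a)`, so `range (x y - a b) ≤ (range (y - b)).map x ⊔ range (x - a)`. `near_inv`: `x⁻¹ - a⁻¹ = - a⁻¹ x⁻¹ (x - a)`.
`near_sub`: for `j = 0, 1, ..., h` let `N j = {x ∈ T : Near (2 ^ j * K) x}`. These are increasing sets with at most `h` elements (`1 ∈ N 0`), so `N j = N (j + 1)` for some `j < h`
(otherwise `card (N j) ≥ j + 1` for `j ≤ h`). `N j` is closed under products by `near_mul` (`2 ^ j * K + 2 ^ j * K = 2 ^ (j + 1) * K`) and under inverses: a subgroup `T₁ ≤ T`. Every element `x` of `T` with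
`Near K x` is in `N 0 ≤ N j`; elements of `T₁` satisfy `Near (2 ^ j * K) x`, hence `Near (2 ^ h * K) x`.
-/

set_option autoImplicit false

open Module

namespace Pool.Agent.Helper70.GLn

/-- `x` is a nonzero scalar up to a map of rank at most `K`. -/
def Near {F V : Type} [Field F] [AddCommGroup V] [Module F V] (K : ℕ) (x : V ≃ₗ[F] V) : Prop :=
  ∃ a : Fˣ, finrank F (LinearMap.range ((x : V →ₗ[F] V) - (a : F) • LinearMap.id)) ≤ K

private lemma frange_add46 {F V : Type} [Field F] [Finite F] [AddCommGroup V] [Module F V]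
    [Finite V] (A B : V →ₗ[F] V) : finrank F (LinearMap.range (A + B)) ≤
      finrank F (LinearMap.range A) + finrank F (LinearMap.range B) := by
  have h1 : LinearMap.range (A + B) ≤ LinearMap.range A ⊔ LinearMap.range B := by
    rintro _ ⟨v, rfl⟩
    exact Submodule.add_mem_sup ⟨v, rfl⟩ ⟨v, rfl⟩
  exact (Submodule.finrank_mono h1).trans (Submodule.finrank_add_le_finrank_add_finrank _ _)

private lemma frange_comp46 {F V : Type} [Field F] [Finite F] [AddCommGroup V] [Module F V]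
    [Finite V] (A B : V →ₗ[F] V) : finrank F (LinearMap.range (A ∘ₗ B)) ≤
      finrank F (LinearMap.range B) := by
  rw [LinearMap.range_comp]
  exact Submodule.finrank_map_le _ _

theorem near_mul {F V : Type} [Field F] [Finite F] [AddCommGroup V] [Module F V] [Finite V]
    {K L : ℕ} {x y : V ≃ₗ[F] V} (hx : Near K x) (hy : Near L y) : Near (K + L) (x * y) := by
  obtain ⟨a, ha⟩ := hx
  obtain ⟨b, hb⟩ := hy
  refine ⟨a * b, ?_⟩
  have h1 : ((x * y : V ≃ₗ[F] V) : V →ₗ[F] V) - ((a * b : Fˣ) : F) • LinearMap.id =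
      ((b : F) • LinearMap.id) ∘ₗ ((x : V →ₗ[F] V) - (a : F) • LinearMap.id) +
        (x : V →ₗ[F] V) ∘ₗ ((y : V →ₗ[F] V) - (b : F) • LinearMap.id) := by
    ext v
    simp only [LinearMap.sub_apply, LinearMap.add_apply, LinearMap.comp_apply,
      LinearMap.smul_apply, LinearMap.id_apply, LinearEquiv.coe_coe, LinearEquiv.mul_apply,
      Units.val_mul, map_sub, map_smul, smul_smul]
    abel
  rw [h1]
  refine (frange_add46 _ _).trans ?_
  exact Nat.add_le_add ((frange_comp46 _ _).trans ha) ((frange_comp46 _ _).trans hb)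

theorem near_inv {F V : Type} [Field F] [Finite F] [AddCommGroup V] [Module F V] [Finite V]
    {K : ℕ} {x : V ≃ₗ[F] V} (hx : Near K x) : Near K x⁻¹ := by
  obtain ⟨a, ha⟩ := hx
  refine ⟨a⁻¹, ?_⟩
  have h1 : ((x⁻¹ : V ≃ₗ[F] V) : V →ₗ[F] V) - ((a⁻¹ : Fˣ) : F) • LinearMap.id =
      ((-((a⁻¹ : Fˣ) : F)) • ((x⁻¹ : V ≃ₗ[F] V) : V →ₗ[F] V)) ∘ₗ
        ((x : V →ₗ[F] V) - (a : F) • LinearMap.id) := by
    ext v
    simp only [LinearMap.sub_apply, LinearMap.comp_apply,
      LinearMap.smul_apply, LinearMap.id_apply, LinearEquiv.coe_coe, map_sub, map_smul, smul_smul]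
    have h2 : x⁻¹ (x v) = v := x.symm_apply_apply v
    rw [h2]
    have h3 : (a : F) * (-((a⁻¹ : Fˣ) : F)) = -1 := by
      rw [mul_neg, Units.mul_inv]
    rw [h3, neg_smul, neg_smul, one_smul]
    abel
  rw [h1]
  exact (frange_comp46 _ _).trans ha

private lemma near_mono46 {F V : Type} [Field F] [AddCommGroup V] [Module F V] {K L : ℕ}
    (h : K ≤ L) {x : V ≃ₗ[F] V} (hx : Near K x) : Near L x := by
  obtain ⟨a, ha⟩ := hx
  exact ⟨a, ha.trans h⟩

private lemma near_one46 {F V : Type} [Field F] [AddCommGroup V] [Module F V] (K : ℕ) :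
    Near K (1 : V ≃ₗ[F] V) := by
  refine ⟨1, ?_⟩
  have h1 : ((1 : V ≃ₗ[F] V) : V →ₗ[F] V) - ((1 : Fˣ) : F) • LinearMap.id = 0 := by
    ext v
    simp
  rw [h1, LinearMap.range_zero, finrank_bot]
  exact Nat.zero_le _

theorem near_sub {F V : Type} [Field F] [Finite F] [AddCommGroup V] [Module F V] [Finite V]
    {h : ℕ} (K : ℕ) (T : Subgroup (SpecialLinearGroup F V)) (hT : Nat.card T ≤ h) :
    ∃ T₁ : Subgroup (SpecialLinearGroup F V), T₁ ≤ T ∧
      (∀ x ∈ T, Near K (x : V ≃ₗ[F] V) → x ∈ T₁) ∧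
      ∀ x ∈ T₁, Near (2 ^ h * K) (x : V ≃ₗ[F] V) := by
  classical
  have hfin : Finite (V ≃ₗ[F] V) := Finite.of_injective (fun g : V ≃ₗ[F] V => (g : V → V))
    DFunLike.coe_injective
  have hfin2 : Finite (SpecialLinearGroup F V) := Subtype.finite
  set s : ℕ → Set (SpecialLinearGroup F V) :=
    fun j => {x | x ∈ T ∧ Near (2 ^ j * K) (x : V ≃ₗ[F] V)} with hs
  have hmono : ∀ j, s j ⊆ s (j + 1) := by
    intro j x hx
    exact ⟨hx.1, near_mono46 (Nat.mul_le_mul_right K (Nat.pow_le_pow_right (by norm_num)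
      (Nat.le_succ j))) hx.2⟩
  have hsT : ∀ j, (s j).ncard ≤ h := by
    intro j
    have h1 : (s j).ncard ≤ ((T : Set (SpecialLinearGroup F V))).ncard :=
      Set.ncard_le_ncard (fun x hx => hx.1) (Set.toFinite _)
    refine h1.trans ?_
    rw [← Nat.card_coe_set_eq]
    exact hT
  obtain ⟨j, hj, hjeq⟩ : ∃ j < h, s j = s (j + 1) := by
    by_contra hcon
    push Not at hcon
    have h1 : ∀ j ≤ h, j + 1 ≤ (s j).ncard := by
      intro j
      induction j with
      | zero =>
        intro _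
        have h2 : (1 : SpecialLinearGroup F V) ∈ s 0 := ⟨T.one_mem, near_one46 _⟩
        exact (Set.ncard_pos (Set.toFinite _)).2 ⟨_, h2⟩
      | succ j ih =>
        intro hj
        have h2 := ih (by omega)
        have h3 : s j ⊂ s (j + 1) := (hmono j).ssubset_of_ne (hcon j (by omega))
        have h4 := Set.ncard_lt_ncard h3 (Set.toFinite _)
        omega
    have h2 := h1 h le_rfl
    have h3 := hsT h
    omega
  refine ⟨{ carrier := s j
            mul_mem' := ?_
            one_mem' := ⟨T.one_mem, near_one46 _⟩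
            inv_mem' := ?_ }, fun x hx => hx.1, ?_, ?_⟩
  · intro x y hx hy
    rw [hjeq]
    refine ⟨T.mul_mem hx.1 hy.1, ?_⟩
    have h1 := near_mul hx.2 hy.2
    have h2 : 2 ^ j * K + 2 ^ j * K = 2 ^ (j + 1) * K := by ring
    rw [h2] at h1
    exact h1
  · intro x hx
    exact ⟨T.inv_mem hx.1, near_inv hx.2⟩
  · intro x hx hK
    refine ⟨hx, near_mono46 ?_ hK⟩
    exact Nat.le_mul_of_pos_left K (pow_pos (by norm_num) j)
  · intro x hx
    exact near_mono46 (Nat.mul_le_mul_right K (Nat.pow_le_pow_right (by norm_num) hj.le)) hx.2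

end Pool.Agent.Helper70.GLn
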