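import Pool.Agent.Helper70.GLw.LS
import Pool.Agent.Helper70.GLw.NF
import Pool.Agent.Helper70.GLw.SC
import Pool.Agent.Helper70.GLn.BD

/-!
# Project GW: the sum of the defects over a subgroup of the special linear group
-/

set_option autoImplicit false

open Module Pool.Agent.Helper13.Ded

namespace Pool.Agent.Helper70.GLn

theorem near_sum (F : Type) [Field F] [Finite F] (h : ℕ) : ∃ c : ℝ, 0 < c ∧ c ≤ 1 ∧
    ∀ K R : ℕ, ∃ n1 : ℕ, ∀ (V : Type) [AddCommGroup V] [Module F V] [Finite V],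
    n1 ≤ finrank F V → ∀ θ : SpecialLinearGroup F V → ℝ, HP θ →
    (∀ z x : SpecialLinearGroup F V, (∃ a : F, ∀ v, z v = a • v) → θ (z * x) = θ x) →
    ∀ T : Subgroup (SpecialLinearGroup F V), Nat.card T ≤ h →
    (∀ x ∈ T, Near K (x : V ≃ₗ[F] V)) →
    (∃ v : V, ∀ x ∈ T, ∀ a : F, x v = a • v → a ^ finrank F V = 1) →
    ∃ W : Submodule F V, Big R W W ∧
      ∑ᶠ x : T, (θ 1 - θ x) ≤ ((Nat.card T : ℝ) - c) * nn θ (EE W W) := by
  classical
  obtain ⟨c, hc0, hc1, hlev⟩ := lev_sum F h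
  refine ⟨c, hc0, hc1, ?_⟩
  intro K R
  obtain ⟨n, hn⟩ := hlev K
  have hq : 0 < Nat.card F - 1 := by
    have : 1 < Nat.card F := Finite.one_lt_card
    omega
  obtain ⟨m, hm⟩ : ∃ m, m = (Nat.card F - 1) * max n R := ⟨_, rfl⟩
  have hm1 : max n R ≤ m := by rw [hm]; exact Nat.le_mul_of_pos_left _ hq
  have hm2 : (Nat.card F - 1) ∣ m := by rw [hm]; exact dvd_mul_right _ _
  refine ⟨m + m + 2 * (h * K) + 1, ?_⟩
  intro V _ _ _ hV θ hθ hz T hT hnear hv
  obtain ⟨v₀, hv₀⟩ := hv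
  have := Fintype.ofFinite T
  choose a ha using fun x : T => hnear x x.2
  have hTK : Nat.card T * K ≤ h * K := Nat.mul_le_mul_right _ hT
  obtain ⟨A, B, _, _, _, _, _, _, e, z, hA, hB, hr, hex⟩ := near_family F V T
    (fun x => ((x : SpecialLinearGroup F V) : V ≃ₗ[F] V)) a K m (by omega) ha
  obtain ⟨t, ht, hb⟩ := exists_tr e
  have hθ' : HP (fun g => θ (t g)) := hθ.comp t
  have hrank : finrank F (A × B) = finrank F V := e.symm.finrank_eq
  -- the transported group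
  obtain ⟨T', hT'⟩ : ∃ T' : Subgroup (Lev F A B), T' = T.comap (t.comp dg) := ⟨_, rfl⟩
  have hmem : ∀ l : Lev F A B, l ∈ T' ↔ t (dg l) ∈ T := by
    intro l
    rw [hT']
    rfl
  have hform : ∀ (l : Lev F A B) (hl : t (dg l) ∈ T) (w : A × B),
      (l.1.1 w.1, l.1.2 w.2) = ((a ⟨_, hl⟩ : F) • w.1, z ⟨_, hl⟩ w.2) := by
    intro l hl w
    have h1 := hex ⟨_, hl⟩ (e.symm w)
    have h2 : e ((t (dg l) : SpecialLinearGroup F V) (e.symm w)) = dg l w := by
      rw [ht, LinearEquiv.apply_symm_apply, LinearEquiv.apply_symm_apply]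
    rw [LinearEquiv.apply_symm_apply] at h1
    rw [← dg_apply, ← h2]
    exact h1
  have hinj : ∀ l l' : Lev F A B, t (dg l) = t (dg l') → l = l' := by
    intro l l' hll
    have h1 := hb.1 hll
    have h2 : ∀ w : A × B, (l.1.1 w.1, l.1.2 w.2) = (l'.1.1 w.1, l'.1.2 w.2) := fun w => by
      rw [← dg_apply, ← dg_apply, h1]
    apply Subtype.ext
    refine Prod.ext ?_ ?_
    · ext x
      exact congrArg Prod.fst (h2 (x, 0))
    · ext x
      exact congrArg Prod.snd (h2 (0, x))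
  let ψ : T' → T := fun l => ⟨t (dg l), (hmem l).1 l.2⟩
  have hψ : Function.Bijective ψ := by
    constructor
    · intro l l' hll
      exact Subtype.ext (hinj _ _ (congrArg Subtype.val hll))
    · rintro ⟨x, hx⟩
      obtain ⟨l, hl1, hl2, hl3⟩ := exists_lev e t ht hb x (LinearEquiv.smulOfUnit (a ⟨x, hx⟩))
        (z ⟨x, hx⟩) (fun v => hex ⟨x, hx⟩ v)
      exact ⟨⟨l, (hmem l).2 (by rw [hl2]; exact hx)⟩, Subtype.ext hl2⟩
  have hcard : Nat.card T' = Nat.card T := Nat.card_congr (Equiv.ofBijective ψ hψ)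
  let a' : Lev F A B → Fˣ := fun l => if hl : t (dg l) ∈ T then a ⟨_, hl⟩ else 1
  have ha' : ∀ (l : Lev F A B) (hl : t (dg l) ∈ T), a' l = a ⟨_, hl⟩ := by
    intro l hl
    exact dif_pos hl
  have hs : ∀ l ∈ T', ∀ v, l.1.1 v = (a' l : F) • v := by
    intro l hl v
    rw [ha' l ((hmem l).1 hl)]
    exact congrArg Prod.fst (hform l ((hmem l).1 hl) (v, 0))
  have hz2 : ∀ (l : Lev F A B) (hl : t (dg l) ∈ T), l.1.2 = z ⟨_, hl⟩ := by
    intro l hl
    ext v
    exact congrArg Prod.snd (hform l hl (0, v))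
  have hr' : ∀ l ∈ T', finrank F (LinearMap.range ((l.1.2 : B →ₗ[F] B) -
      (a' l : F) • LinearMap.id)) ≤ K := by
    intro l hl
    rw [ha' l ((hmem l).1 hl), hz2 l ((hmem l).1 hl)]
    exact hr _
  have hβ : ∃ β : B, ∀ l ∈ T', l.1.2 β = (a' l : F) • β → (a' l : F) ^ finrank F (A × B) = 1 := by
    refine ⟨(e v₀).2, ?_⟩
    intro l hl hlb
    rw [hrank]
    refine hv₀ (t (dg l)) ((hmem l).1 hl) (a' l : F) ?_
    rw [ht, LinearEquiv.symm_apply_eq, map_smul, dg_apply, hs l hl, hlb]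
    rfl
  have hz' : ∀ z x : SpecialLinearGroup F (A × B), (∃ a : F, ∀ v, z v = a • v) →
      (fun g => θ (t g)) (z * x) = (fun g => θ (t g)) x := by
    rintro z x ⟨a, ha⟩
    show θ (t (z * x)) = θ (t x)
    rw [map_mul]
    refine hz _ _ ⟨a, fun v => ?_⟩
    rw [ht, LinearEquiv.symm_apply_eq, map_smul]
    exact ha _
  have hmain := hn A B (fun g => θ (t g)) hθ' hz' T' a' (by rw [hcard]; exact hT) hs hr'
    (by rw [hA]; exact hm2) (by rw [hA]; exact (le_max_left _ _).trans hm1)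
    ((le_max_left _ _).trans (hm1.trans hB)) hβ
  refine ⟨(A0 F A B).comap (e : V →ₗ[F] A × B), big_comap e (by
    rw [hA]; exact (le_max_right _ _).trans hm1) ((le_max_right _ _).trans (hm1.trans hB)), ?_⟩
  rw [nn_tr e t ht hb θ, ← hcard]
  refine le_of_eq_of_le ?_ hmain
  rw [← finsum_comp_equiv (Equiv.ofBijective ψ hψ)]
  refine finsum_congr fun l => ?_
  show θ 1 - θ (t (dg l)) = θ (t 1) - θ (t (dg l))
  rw [map_one]

/-- The sum over a subgroup as a sum over the group. -/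
lemma sum_sub70 {G : Type*} [Group G] [Fintype G] (T : Subgroup G) [DecidablePred (· ∈ T)]
    (f : G → ℝ) : ∑ᶠ x : T, f x = ∑ x : G, if x ∈ T then f x else 0 := by
  have := Fintype.ofFinite T
  rw [finsum_eq_sum_of_fintype, ← Finset.sum_filter,
    Finset.sum_subtype (Finset.univ.filter (fun x : G => x ∈ T)) (p := fun x => x ∈ T)
    (fun x => by simp)]

theorem sum_bound (F : Type) [Field F] [Finite F] (h : ℕ) : ∃ c : ℝ, 0 < c ∧ c ≤ 1 ∧
    ∀ R : ℕ, ∃ n1 : ℕ, ∀ (V : Type) [AddCommGroup V] [Module F V] [Finite V],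
    n1 ≤ finrank F V → ∀ θ : SpecialLinearGroup F V → ℝ, HP θ →
    (∀ z x : SpecialLinearGroup F V, (∃ a : F, ∀ v, z v = a • v) → θ (z * x) = θ x) →
    ∀ T : Subgroup (SpecialLinearGroup F V), Nat.card T ≤ h →
    (∃ v : V, ∀ x ∈ T, ∀ a : F, x v = a • v → a ^ finrank F V = 1) →
    ∃ W : Submodule F V, Big R W W ∧
      ∑ᶠ x : T, (θ 1 - θ x) ≤ ((Nat.card T : ℝ) - c) * nn θ (EE W W) := by
  classical
  obtain ⟨c, hc0, hc1, hnear⟩ := near_sum F h
  refine ⟨c / 2, by positivity, by linarith, ?_⟩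
  intro R
  obtain ⟨ε, hε⟩ : ∃ ε : ℝ, ε = c / (8 * (h + 1)) := ⟨_, rfl⟩
  have hh : (0 : ℝ) ≤ h := Nat.cast_nonneg h
  have hε0 : 0 < ε := by rw [hε]; positivity
  have hε1 : ε ≤ 1 := by
    rw [hε, div_le_one (by positivity)]
    nlinarith
  obtain ⟨R₀, -, hR₀⟩ := nn_compare F hε0
  obtain ⟨K, n0, hfar⟩ := far_bound F h (max R R₀) hε0
  obtain ⟨n1, hn1⟩ := hnear (2 ^ h * K) (max R R₀)
  refine ⟨max n0 n1, ?_⟩
  intro V _ _ _ hV θ hθ hz T hT hv
  obtain ⟨T₁, hT₁, hin, hK⟩ := near_sub K T hT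
  have hcT : Nat.card T₁ ≤ Nat.card T := Subgroup.card_le_of_le hT₁
  obtain ⟨W, hW, hsum⟩ := hn1 V (le_trans (le_max_right _ _) hV) θ hθ hz T₁ (hcT.trans hT) hK
    (by
      obtain ⟨v, hv⟩ := hv
      exact ⟨v, fun x hx => hv x (hT₁ hx)⟩)
  have hBR : Big R W W := ⟨hW.1, (le_max_left _ _).trans hW.2.1, by
    have h1 := hW.2.2
    have h2 := le_max_left R R₀
    omega⟩
  have hB0 : Big R₀ W W := ⟨hW.1, (le_max_right _ _).trans hW.2.1, by
    have h1 := hW.2.2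
    have h2 := le_max_right R R₀
    omega⟩
  refine ⟨W, hBR, ?_⟩
  have hnn : 0 ≤ nn θ (EE W W) := nn_nonneg hθ _
  obtain ⟨m, hm⟩ : ∃ m, m = nn θ (EE W W) := ⟨_, rfl⟩
  rw [← hm] at hsum hnn ⊢
  have hout : ∀ x ∈ T, x ∉ T₁ → θ 1 - θ x ≤ (1 + 3 * ε) * m := by
    intro x hx hx1
    have hox : orderOf x ≤ h := by
      have h1 : orderOf (⟨x, hx⟩ : T) ≤ Nat.card T := orderOf_le_card
      rw [Subgroup.orderOf_mk] at h1
      exact h1.trans hT
    rcases hfar V (le_trans (le_max_left _ _) hV) θ hθ x hox with h1 | ⟨W', hW', hle⟩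
    · exact absurd (hin x hx h1) hx1
    · have hB' : Big R₀ W' W' := ⟨hW'.1, (le_max_right _ _).trans hW'.2.1, by
        have h1 := hW'.2.2
        have h2 := le_max_right R R₀
        omega⟩
      have h2 := hR₀ V θ hθ W' W' W W hB' hB0
      rw [← hm] at h2
      have h3 : (1 + ε) * nn θ (EE W' W') ≤ (1 + ε) * ((1 + ε) * m) :=
        mul_le_mul_of_nonneg_left h2 (by linarith)
      have h4 : (1 + ε) * ((1 + ε) * m) ≤ (1 + 3 * ε) * m := by
        rw [← mul_assoc]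
        exact mul_le_mul_of_nonneg_right (by nlinarith) hnn
      exact hle.trans (h3.trans h4)
  have := Fintype.ofFinite (SpecialLinearGroup F V)
  rw [sum_sub70 T (fun x => θ 1 - θ x)]
  rw [sum_sub70 T₁ (fun x => θ 1 - θ x)] at hsum
  have hcard : ∀ S : Subgroup (SpecialLinearGroup F V),
      (Nat.card S : ℝ) = ∑ x : SpecialLinearGroup F V, if x ∈ S then (1 : ℝ) else 0 := by
    intro S
    rw [← sum_sub70 S (fun _ => (1 : ℝ))]
    have := Fintype.ofFinite S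
    rw [finsum_eq_sum_of_fintype, Finset.sum_const, Finset.card_univ, nsmul_eq_mul, mul_one,
      Nat.card_eq_fintype_card]
  have hterm : ∀ x : SpecialLinearGroup F V, (if x ∈ T then θ 1 - θ x else 0) ≤
      (if x ∈ T₁ then θ 1 - θ x else 0) + ((1 + 3 * ε) * m) *
        ((if x ∈ T then (1 : ℝ) else 0) - (if x ∈ T₁ then (1 : ℝ) else 0)) := by
    intro x
    by_cases hx1 : x ∈ T₁
    · rw [if_pos (hT₁ hx1), if_pos hx1, if_pos (hT₁ hx1), if_pos hx1, sub_self, mul_zero, add_zero]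
    · by_cases hx : x ∈ T
      · rw [if_pos hx, if_neg hx1, if_pos hx, if_neg hx1, sub_zero, mul_one, zero_add]
        exact hout x hx hx1
      · rw [if_neg hx, if_neg hx1, if_neg hx, if_neg hx1, sub_self, mul_zero, add_zero]
  have htot := Finset.sum_le_sum (fun x (_ : x ∈ (Finset.univ :
    Finset (SpecialLinearGroup F V))) => hterm x)
  rw [Finset.sum_add_distrib, ← Finset.mul_sum, Finset.sum_sub_distrib, ← hcard, ← hcard] at htot
  have h1 : (Nat.card T₁ : ℝ) ≤ Nat.card T := by exact_mod_cast hcT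
  have h2 : (Nat.card T : ℝ) ≤ h := by exact_mod_cast hT
  have h3 : (0 : ℝ) ≤ Nat.card T₁ := Nat.cast_nonneg _
  have h4 : 3 * ε * (Nat.card T - Nat.card T₁) ≤ c / 2 := by
    have h5 : 3 * ε * (Nat.card T - Nat.card T₁) ≤ 3 * ε * (h + 1) :=
      mul_le_mul_of_nonneg_left (by linarith) (by linarith)
    have h6 : 3 * ε * ((h : ℝ) + 1) = 3 / 8 * c := by
      rw [hε]
      field_simp
    linarith
  have h7 : 3 * ε * (Nat.card T - Nat.card T₁) * m ≤ c / 2 * m :=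
    mul_le_mul_of_nonneg_right h4 hnn
  calc _ ≤ _ := htot
    _ ≤ ((Nat.card T₁ : ℝ) - c) * m + (1 + 3 * ε) * m * (Nat.card T - Nat.card T₁) := by
        linarith
    _ = ((Nat.card T : ℝ) - c) * m + 3 * ε * (Nat.card T - Nat.card T₁) * m := by ring
    _ ≤ ((Nat.card T : ℝ) - c / 2) * m := by linarith

end Pool.Agent.Helper70.GLn
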